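import Pool.Agent.Helper406.Rec2.Cyc

/-!
The three-player game on an odd cycle.
-/

namespace Pool.Agent.Helper406.Rec2

open Finset
open Pool.Agent.Helper406.Rec (tensor_bound tensor_form)

set_option linter.unusedSectionVars false

section game
variable {p : ℕ} [NeZero p]

/-- index of the second player -/
def yc (a : ZMod p) (b : Fin 2) : ZMod p := if b = 0 then a else a + 1
/-- index of the third player -/
def zc (a : ZMod p) (b : Fin 2) : ZMod p := if b = 0 then a + 1 else a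

def pc (e : ZMod p × Fin 2 × Fin 2) : ZMod p × Fin 3 :=
  if e.2.1 = 0 then (if e.2.2 = 0 then (e.1, 1) else (e.1, 0))
  else (if e.2.2 = 0 then (e.1 + 1, 0) else (e.1, 2))

def qc (e : ZMod p × Fin 2 × Fin 2) : ZMod p × Fin 3 :=
  if e.2.1 = 0 then (if e.2.2 = 0 then (e.1, 1) else (e.1 + 1, 0))
  else (if e.2.2 = 0 then (e.1, 0) else (e.1, 2))

/-- the first coordinate of a pair -/
def fs (x : ZMod p × Fin 3) : ZMod p := if x.2 = 2 then x.1 + 1 else x.1
/-- the second coordinate of a pair -/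
def sn (x : ZMod p × Fin 3) : ZMod p := if x.2 = 1 then x.1 + 1 else x.1

noncomputable def cc (w : ZMod p → Fin 2 → ℂ) (e : ZMod p × Fin 2 × Fin 2) : ℂ :=
  w e.1 e.2.1 * (starRingEnd ℂ) (w e.1 e.2.2)

lemma fs_pc (e : ZMod p × Fin 2 × Fin 2) : fs (pc e) = yc e.1 e.2.1 := by
  obtain ⟨a, b, b'⟩ := e
  fin_cases b <;> fin_cases b' <;> simp [fs, pc, yc]

lemma sn_pc (e : ZMod p × Fin 2 × Fin 2) : sn (pc e) = zc e.1 e.2.2 := by
  obtain ⟨a, b, b'⟩ := e
  fin_cases b <;> fin_cases b' <;> simp [sn, pc, zc]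

lemma fs_qc (e : ZMod p × Fin 2 × Fin 2) : fs (qc e) = yc e.1 e.2.2 := by
  obtain ⟨a, b, b'⟩ := e
  fin_cases b <;> fin_cases b' <;> simp [fs, qc, yc]

lemma sn_qc (e : ZMod p × Fin 2 × Fin 2) : sn (qc e) = zc e.1 e.2.1 := by
  obtain ⟨a, b, b'⟩ := e
  fin_cases b <;> fin_cases b' <;> simp [sn, qc, zc]

/-- the weights -/
noncomputable def dw (c : ℝ) (x : ZMod p × Fin 3) : ℝ := if x.2 = 0 then Real.sqrt (4 - c) else 1

lemma dw_pos (c : ℝ) (hc : c ≤ 1) (x : ZMod p × Fin 3) : 0 < dw c x := by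
  unfold dw
  split_ifs
  · apply Real.sqrt_pos.2; linarith
  · norm_num

lemma sum_dw (c : ℝ) : ∑ x : ZMod p × Fin 3, dw c x = p * (2 + Real.sqrt (4 - c)) := by
  rw [Fintype.sum_prod_type]
  have : ∀ a : ZMod p, ∑ y : Fin 3, dw c (a, y) = 2 + Real.sqrt (4 - c) := by
    intro a
    rw [Fin.sum_univ_three]
    simp [dw]
    ring
  rw [Finset.sum_congr rfl fun a _ => this a, Finset.sum_const, Finset.card_univ, ZMod.card,
    nsmul_eq_mul]

lemma one_coord_cyc (w : ZMod p → Fin 2 → ℂ) (hw : ∀ a b, ‖w a b‖ = 1) (c : ℝ) (hc1 : c ≤ 1)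
    (hcyc : ∀ v : ZMod p → ℂ,
      ∑ a, ‖(w a 0 * (starRingEnd ℂ) (w a 1)) * v (a + 1) +
        (starRingEnd ℂ) (w (a - 1) 0 * (starRingEnd ℂ) (w (a - 1) 1)) * v (a - 1)‖ ^ 2
        ≤ (4 - c) * ∑ a, ‖v a‖ ^ 2) (v : ZMod p × Fin 3 → ℂ) :
    ∑ x, (dw c x)⁻¹ * ‖∑ y, (∑ e, if pc e = x ∧ qc e = y then cc w e else 0) * v y‖ ^ 2
      ≤ ∑ y, dw c y * ‖v y‖ ^ 2 := by
  have h1 : ∀ x, ∑ y, (∑ e, if pc e = x ∧ qc e = y then cc w e else 0) * v y
      = ∑ e, if pc e = x then cc w e * v (qc e) else 0 := by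
    intro x
    simp only [Finset.sum_mul]
    rw [Finset.sum_comm]
    apply Finset.sum_congr rfl
    intro e _
    rw [Finset.sum_eq_single (qc e)]
    · by_cases h : pc e = x
      · simp [h]
      · simp [h]
    · intro y _ hy
      rw [if_neg, zero_mul]
      rintro ⟨_, h⟩
      exact hy h.symm
    · intro h; exact absurd (Finset.mem_univ _) h
  simp only [h1]
  have hmm : ∀ a b, w a b * (starRingEnd ℂ) (w a b) = 1 := by
    intro a b
    rw [Complex.mul_conj, Complex.normSq_eq_norm_sq, hw]; norm_num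
  -- evaluate the rows
  have row1 : ∀ a : ZMod p, ∑ e, (if pc e = (a, (1 : Fin 3)) then cc w e * v (qc e) else 0)
      = v (a, 1) := by
    intro a
    rw [Finset.sum_eq_single ((a, 0, 0) : ZMod p × Fin 2 × Fin 2)]
    · simp [pc, qc, cc, hmm]
    · rintro ⟨a', b, b'⟩ _ hne
      rw [if_neg]
      intro h
      apply hne
      fin_cases b <;> fin_cases b' <;> simp [pc] at h ⊢
      exact h
    · intro h; exact absurd (Finset.mem_univ _) h
  have row2 : ∀ a : ZMod p, ∑ e, (if pc e = (a, (2 : Fin 3)) then cc w e * v (qc e) else 0)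
      = v (a, 2) := by
    intro a
    rw [Finset.sum_eq_single ((a, 1, 1) : ZMod p × Fin 2 × Fin 2)]
    · simp [pc, qc, cc, hmm]
    · rintro ⟨a', b, b'⟩ _ hne
      rw [if_neg]
      intro h
      apply hne
      fin_cases b <;> fin_cases b' <;> simp [pc] at h ⊢
      exact h
    · intro h; exact absurd (Finset.mem_univ _) h
  have row0 : ∀ a : ZMod p, ∑ e, (if pc e = (a, (0 : Fin 3)) then cc w e * v (qc e) else 0)
      = (w a 0 * (starRingEnd ℂ) (w a 1)) * v (a + 1, 0) +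
        (starRingEnd ℂ) (w (a - 1) 0 * (starRingEnd ℂ) (w (a - 1) 1)) * v (a - 1, 0) := by
    intro a
    have hne : ((a, 0, 1) : ZMod p × Fin 2 × Fin 2) ≠ (a - 1, 1, 0) := by
      intro h
      simp only [Prod.mk.injEq] at h
      exact absurd h.2.1 (by decide)
    rw [Fintype.sum_eq_add ((a, 0, 1) : ZMod p × Fin 2 × Fin 2) (a - 1, 1, 0) hne]
    · simp [pc, qc, cc]
      left
      ring
    · rintro ⟨a', b, b'⟩ ⟨h1, h2⟩
      rw [if_neg]
      intro h
      fin_cases b <;> fin_cases b' <;> simp [pc] at h h1 h2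
      · exact h1 h
      · apply h2
        rw [← h]; ring
  rw [Fintype.sum_prod_type, Fintype.sum_prod_type]
  simp only [Fin.sum_univ_three, row0, row1, row2]
  simp only [dw]
  simp only [if_true, show ((1 : Fin 3) = 0) = False by simp, show ((2 : Fin 3) = 0) = False by simp,
    if_false, inv_one, one_mul]
  simp only [Finset.sum_add_distrib, ← Finset.mul_sum]
  have h2 := hcyc (fun a => v (a, 0))
  have hs : 0 < Real.sqrt (4 - c) := Real.sqrt_pos.2 (by linarith)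
  have hs2 : Real.sqrt (4 - c) * Real.sqrt (4 - c) = 4 - c := Real.mul_self_sqrt (by linarith)
  have h3 : (Real.sqrt (4 - c))⁻¹ * ∑ a, ‖(w a 0 * (starRingEnd ℂ) (w a 1)) * v (a + 1, 0) +
        (starRingEnd ℂ) (w (a - 1) 0 * (starRingEnd ℂ) (w (a - 1) 1)) * v (a - 1, 0)‖ ^ 2
        ≤ Real.sqrt (4 - c) * ∑ a, ‖v (a, 0)‖ ^ 2 := by
    rw [inv_mul_le_iff₀ hs, ← mul_assoc, hs2]
    exact h2
  linarith

lemma sum_triple' {A : Type} [Fintype A] [DecidableEq A] (n : ℕ)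
    (f : (Fin n → A) → (Fin n → Fin 2) → (Fin n → Fin 2) → ℂ) :
    ∑ a, ∑ b, ∑ b', f a b b'
      = ∑ e : Fin n → A × Fin 2 × Fin 2,
          f (fun i => (e i).1) (fun i => (e i).2.1) (fun i => (e i).2.2) := by
  have h1 : ∀ a : Fin n → A, ∑ b, ∑ b', f a b b'
      = ∑ c : Fin n → Fin 2 × Fin 2, f a (fun i => (c i).1) (fun i => (c i).2) := by
    intro a
    rw [← Fintype.sum_prod_type (f := fun x : (Fin n → Fin 2) × (Fin n → Fin 2) => f a x.1 x.2)]
    exact (Equiv.sum_comp (Equiv.arrowProdEquivProdArrow (Fin n) (fun _ => Fin 2) (fun _ => Fin 2))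
      (fun x : (Fin n → Fin 2) × (Fin n → Fin 2) => f a x.1 x.2)).symm
  simp only [h1]
  rw [← Fintype.sum_prod_type (f := fun x : (Fin n → A) × (Fin n → Fin 2 × Fin 2) =>
    f x.1 (fun i => (x.2 i).1) (fun i => (x.2 i).2))]
  exact (Equiv.sum_comp (Equiv.arrowProdEquivProdArrow (Fin n) (fun _ => A)
    (fun _ => Fin 2 × Fin 2))
      (fun x : (Fin n → A) × (Fin n → Fin 2 × Fin 2) =>
        f x.1 (fun i => (x.2 i).1) (fun i => (x.2 i).2))).symm

theorem game_cyc (w : ZMod p → Fin 2 → ℂ) (hw : ∀ a b, ‖w a b‖ = 1) (c : ℝ) (hc1 : c ≤ 1)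
    (hcyc : ∀ v : ZMod p → ℂ,
      ∑ a, ‖(w a 0 * (starRingEnd ℂ) (w a 1)) * v (a + 1) +
        (starRingEnd ℂ) (w (a - 1) 0 * (starRingEnd ℂ) (w (a - 1) 1)) * v (a - 1)‖ ^ 2
        ≤ (4 - c) * ∑ a, ‖v a‖ ^ 2) (n : ℕ)
    (F G H : (Fin n → ZMod p) → ℂ) (hF : ∀ a, ‖F a‖ ≤ 1) (hG : ∀ a, ‖G a‖ ≤ 1)
    (hH : ∀ a, ‖H a‖ ≤ 1) :
    ‖∑ a : Fin n → ZMod p, ∑ b : Fin n → Fin 2, (∏ i, w (a i) (b i)) *
      (F a * (G (fun i => yc (a i) (b i)) * H (fun i => zc (a i) (b i))))‖ ^ 2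
      ≤ (p ^ 2 * (2 + Real.sqrt (4 - c))) ^ n := by
  set R : (Fin n → ZMod p) → ℂ := fun a => ∑ b : Fin n → Fin 2, (∏ i, w (a i) (b i)) *
      (G (fun i => yc (a i) (b i)) * H (fun i => zc (a i) (b i))) with hR
  have h1 : ∑ a : Fin n → ZMod p, ∑ b : Fin n → Fin 2, (∏ i, w (a i) (b i)) *
      (F a * (G (fun i => yc (a i) (b i)) * H (fun i => zc (a i) (b i)))) = ∑ a, F a * R a := by
    apply Finset.sum_congr rfl; intro a _
    rw [hR]
    simp only
    rw [Finset.mul_sum]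
    apply Finset.sum_congr rfl; intro b _
    ring
  rw [h1]
  have h2 : ‖∑ a, F a * R a‖ ≤ ∑ a, ‖R a‖ := by
    refine (norm_sum_le _ _).trans ?_
    apply Finset.sum_le_sum; intro a _
    rw [norm_mul]
    have := norm_nonneg (R a)
    nlinarith [hF a]
  have h3 : ‖∑ a, F a * R a‖ ^ 2 ≤ (p:ℝ) ^ n * ∑ a, ‖R a‖ ^ 2 := by
    calc ‖∑ a, F a * R a‖ ^ 2 ≤ (∑ a, ‖R a‖) ^ 2 :=
          pow_le_pow_left₀ (norm_nonneg _) h2 2
      _ ≤ (Finset.univ : Finset (Fin n → ZMod p)).card * ∑ a, ‖R a‖ ^ 2 :=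
          sq_sum_le_card_mul_sum_sq
      _ = (p:ℝ) ^ n * ∑ a, ‖R a‖ ^ 2 := by
          rw [Finset.card_univ, Fintype.card_fun, ZMod.card, Fintype.card_fin]
          push_cast
          rfl
  set Φ : (Fin n → ZMod p × Fin 3) → ℂ := fun P => G (fun i => fs (P i)) *
    (starRingEnd ℂ) (H (fun i => sn (P i))) with hΦ
  set v : (Fin n → ZMod p × Fin 3) → ℂ := fun P => (starRingEnd ℂ) (G (fun i => fs (P i))) *
    (H (fun i => sn (P i))) with hv
  have hΦ1 : ∀ P, ‖Φ P‖ ≤ 1 := by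
    intro P
    rw [hΦ]
    simp only
    rw [norm_mul, Complex.norm_conj]
    have a1 := hG (fun i => fs (P i))
    have a2 := hH (fun i => sn (P i))
    have a3 := norm_nonneg (G (fun i => fs (P i)))
    have a4 := norm_nonneg (H (fun i => sn (P i)))
    nlinarith
  have hv1 : ∀ P, ‖v P‖ ≤ 1 := by
    intro P
    rw [hv]
    simp only
    rw [norm_mul, Complex.norm_conj]
    have a1 := hG (fun i => fs (P i))
    have a2 := hH (fun i => sn (P i))
    have a3 := norm_nonneg (G (fun i => fs (P i)))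
    have a4 := norm_nonneg (H (fun i => sn (P i)))
    nlinarith
  have h4 : ((∑ a, ‖R a‖ ^ 2 : ℝ) : ℂ)
      = ∑ e : Fin n → ZMod p × Fin 2 × Fin 2, (∏ i, cc w (e i)) *
          (Φ (fun i => pc (e i)) * v (fun i => qc (e i))) := by
    push_cast
    have h5 : ∀ a, ((‖R a‖ : ℂ)) ^ 2 = ∑ b : Fin n → Fin 2, ∑ b' : Fin n → Fin 2,
        ((∏ i, w (a i) (b i)) * (G (fun i => yc (a i) (b i)) * H (fun i => zc (a i) (b i)))) *
        (starRingEnd ℂ) ((∏ i, w (a i) (b' i)) *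
          (G (fun i => yc (a i) (b' i)) * H (fun i => zc (a i) (b' i)))) := by
      intro a
      rw [← Complex.mul_conj', hR]
      simp only
      rw [map_sum, Finset.sum_mul_sum]
    rw [Finset.sum_congr rfl fun a _ => h5 a, sum_triple']
    apply Finset.sum_congr rfl; intro e _
    rw [hΦ, hv]
    simp only [fs_pc, sn_pc, fs_qc, sn_qc, cc, map_mul, map_prod]
    rw [Finset.prod_mul_distrib]
    ring
  have h6 := tensor_form pc qc (cc w) n Φ v
  rw [← h4] at h6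
  set Mk : ZMod p × Fin 3 → ZMod p × Fin 3 → ℂ := fun x y =>
    ∑ e, if pc e = x ∧ qc e = y then cc w e else 0 with hMk
  have h7 := tensor_bound Mk (dw c) (dw_pos c hc1) (one_coord_cyc w hw c hc1 hcyc) n v
  set T : (Fin n → ZMod p × Fin 3) → ℂ := fun x => ∑ y : Fin n → ZMod p × Fin 3,
    (∏ i, Mk (x i) (y i)) * v y with hT
  have h8 : ((∑ a, ‖R a‖ ^ 2 : ℝ) : ℂ) = ∑ x, Φ x * T x := h6
  have hprod : ∑ x : Fin n → ZMod p × Fin 3, ∏ i, dw c (x i)
      = (p * (2 + Real.sqrt (4 - c))) ^ n := by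
    have := (Finset.prod_univ_sum (t := fun _ : Fin n => (Finset.univ : Finset (ZMod p × Fin 3)))
      (f := fun _ x => dw c x))
    rw [Fintype.piFinset_univ] at this
    rw [← this, Finset.prod_const, sum_dw]
    simp
  have h9 : ∑ a, ‖R a‖ ^ 2 ≤ (p * (2 + Real.sqrt (4 - c))) ^ n := by
    have g1 : (∑ a, ‖R a‖ ^ 2 : ℝ) = ‖((∑ a, ‖R a‖ ^ 2 : ℝ) : ℂ)‖ := by
      rw [Complex.norm_real, Real.norm_of_nonneg]
      exact Finset.sum_nonneg fun a _ => sq_nonneg _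
    rw [g1, h8]
    refine (norm_sum_le _ _).trans ?_
    have g2 : ∀ x : Fin n → ZMod p × Fin 3, ‖Φ x * T x‖ ≤
        (1 / 2) * (∏ i, dw c (x i)) + (1 / 2) * ((∏ i, (dw c (x i))⁻¹) * ‖T x‖ ^ 2) := by
      intro x
      rw [norm_mul]
      have k1 : 0 < ∏ i, dw c (x i) := Finset.prod_pos fun i _ => dw_pos c hc1 _
      have k2 : (∏ i, (dw c (x i))⁻¹) = (∏ i, dw c (x i))⁻¹ := Finset.prod_inv_distrib _
      rw [k2]
      generalize (∏ i, dw c (x i)) = D at k1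
      have k3 : ‖Φ x‖ * ‖T x‖ ≤ ‖T x‖ := by
        have := norm_nonneg (T x)
        nlinarith [hΦ1 x]
      refine k3.trans ?_
      generalize ‖T x‖ = t
      have k4 : D * D⁻¹ = 1 := mul_inv_cancel₀ k1.ne'
      have k5 : 0 < D⁻¹ := inv_pos.2 k1
      have k6 : 0 ≤ D⁻¹ * (D - t) ^ 2 := by positivity
      have k7 : D⁻¹ * (D - t) ^ 2 = D - 2 * t + D⁻¹ * t ^ 2 := by
        have : D⁻¹ * (D - t) ^ 2 = (D * D⁻¹) * D - 2 * (D * D⁻¹) * t + D⁻¹ * t ^ 2 := by ring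
        rw [this, k4]; ring
      rw [k7] at k6
      linarith
    refine (Finset.sum_le_sum fun x _ => g2 x).trans ?_
    rw [Finset.sum_add_distrib, ← Finset.mul_sum, ← Finset.mul_sum, hprod]
    have g3 : ∑ q : Fin n → ZMod p × Fin 3, (∏ i, dw c (q i)) * ‖v q‖ ^ 2
        ≤ (p * (2 + Real.sqrt (4 - c))) ^ n := by
      rw [← hprod]
      apply Finset.sum_le_sum; intro q _
      have k1 : 0 < ∏ i, dw c (q i) := Finset.prod_pos fun i _ => dw_pos c hc1 _
      have k2 := hv1 q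
      have k3 := norm_nonneg (v q)
      have k4 : ‖v q‖ ^ 2 ≤ 1 := by nlinarith
      nlinarith
    linarith
  calc ‖∑ a, F a * R a‖ ^ 2 ≤ (p:ℝ) ^ n * ∑ a, ‖R a‖ ^ 2 := h3
    _ ≤ (p:ℝ) ^ n * (p * (2 + Real.sqrt (4 - c))) ^ n :=
        mul_le_mul_of_nonneg_left h9 (by positivity)
    _ = (p ^ 2 * (2 + Real.sqrt (4 - c))) ^ n := by rw [← mul_pow]; ring

end game

end Pool.Agent.Helper406.Rec2
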