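import Pool.Agent.Helper406.Rec.Pos
import Pool.Agent.Helper406.Rec2.Game

/-!
Exponential decay of the weighted returns for a measure preserving action of the integers.
-/

namespace Pool.Agent.Helper406.Rec2

open Finset MeasureTheory
open Pool.Agent.Helper406.Rec (avg ind ind_true ind_false ind_nonneg ind_le_one ind_and
  integral_ind integrable_ind avg_mono avg_const avg_le_one avg_sum avg_mul_left avg_congr
  Pt Sub avg_restrict' dhj3)

universe u

/-- a measure preserving action of the integers -/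
structure Act {X : Type u} [MeasurableSpace X] (μ : Measure X) where
  P : ℤ → X → X
  zero : ∀ x, P 0 x = x
  add : ∀ j k x, P (j + k) x = P j (P k x)
  mp : ∀ k, MeasurePreserving (P k) μ μ

section dyn
variable {X : Type u} [MeasurableSpace X] (μ : Measure X) [IsProbabilityMeasure μ]
  (S : Act μ) (A : Set X)

/-- the return function -/
noncomputable def nz (k1 k2 N : ℤ) : ℝ :=
  μ.real {x | x ∈ A ∧ S.P (k1 * N) x ∈ A ∧ S.P (k2 * N) x ∈ A}

lemma nz_nonneg (k1 k2 N : ℤ) : 0 ≤ nz μ S A k1 k2 N := measureReal_nonneg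

variable {A}

lemma meas_P (hA : MeasurableSet A) (k : ℤ) : MeasurableSet {x | S.P k x ∈ A} :=
  (S.mp k).measurable hA

lemma shifted_z (hA : MeasurableSet A) (k1 k2 N k : ℤ) :
    μ.real {x | S.P k x ∈ A ∧ S.P (k1 * N + k) x ∈ A ∧ S.P (k2 * N + k) x ∈ A}
      = nz μ S A k1 k2 N := by
  have h1 : {x | S.P k x ∈ A ∧ S.P (k1 * N + k) x ∈ A ∧ S.P (k2 * N + k) x ∈ A}
      = S.P k ⁻¹' {x | x ∈ A ∧ S.P (k1 * N) x ∈ A ∧ S.P (k2 * N) x ∈ A} := by
    ext x
    simp only [Set.mem_ofPred_eq, Set.mem_preimage, S.add]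
  rw [h1, nz]
  have h2 := (S.mp k).measure_preimage
    (s := {x | x ∈ A ∧ S.P (k1 * N) x ∈ A ∧ S.P (k2 * N) x ∈ A}) ?_
  · unfold Measure.real
    rw [h2]
  · apply MeasurableSet.nullMeasurableSet
    exact hA.inter ((meas_P μ S hA _).inter (meas_P μ S hA _))

variable {p : ℕ} [NeZero p]

theorem decay_fin_z (w : ZMod p → Fin 2 → ℂ) (hw : ∀ a b, ‖w a b‖ = 1) (c : ℝ) (hc1 : c ≤ 1)
    (hcyc : ∀ v : ZMod p → ℂ,
      ∑ a, ‖(w a 0 * (starRingEnd ℂ) (w a 1)) * v (a + 1) +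
        (starRingEnd ℂ) (w (a - 1) 0 * (starRingEnd ℂ) (w (a - 1) 1)) * v (a - 1)‖ ^ 2
        ≤ (4 - c) * ∑ a, ‖v a‖ ^ 2)
    (k1 k2 : ℤ) (σ : ZMod p → Fin 2 → ℤ) (xx uu vv : ZMod p → ℤ)
    (hu : ∀ a b, xx a + k1 * σ a b = uu (yc a b)) (hv : ∀ a b, xx a + k2 * σ a b = vv (zc a b))
    (hA : MeasurableSet A) (n : ℕ) (lam : Fin n → ℤ)
    (h : ∀ (a : Fin n → ZMod p) (b : Fin n → Fin 2), (∏ i, w (a i) (b i)).re < 1 / 2 →
      nz μ S A k1 k2 (∑ i, σ (a i) (b i) * lam i) = 0) :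
    (∑ a : Fin n → ZMod p, ∑ b : Fin n → Fin 2, nz μ S A k1 k2 (∑ i, σ (a i) (b i) * lam i)) ^ 2
      ≤ 4 * (p ^ 2 * (2 + Real.sqrt (4 - c))) ^ n := by
  set F : X → (Fin n → ZMod p) → ℂ := fun x a =>
    ((ind (S.P (∑ i, xx (a i) * lam i) x ∈ A) : ℝ) : ℂ) with hF
  set G : X → (Fin n → ZMod p) → ℂ := fun x a =>
    ((ind (S.P (∑ i, uu (a i) * lam i) x ∈ A) : ℝ) : ℂ) with hG
  set H : X → (Fin n → ZMod p) → ℂ := fun x a =>
    ((ind (S.P (∑ i, vv (a i) * lam i) x ∈ A) : ℝ) : ℂ) with hH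
  have hbound : ∀ (k : ℤ) (x : X), ‖((ind (S.P k x ∈ A) : ℝ) : ℂ)‖ ≤ 1 := by
    intro k x
    rw [Complex.norm_real, Real.norm_of_nonneg (ind_nonneg _)]
    exact ind_le_one _
  have hsums1 : ∀ (a : Fin n → ZMod p) (b : Fin n → Fin 2),
      k1 * ∑ i, σ (a i) (b i) * lam i + ∑ i, xx (a i) * lam i
        = ∑ i, uu (yc (a i) (b i)) * lam i := by
    intro a b
    rw [Finset.mul_sum, ← Finset.sum_add_distrib]
    apply Finset.sum_congr rfl; intro i _
    rw [← hu]; ring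
  have hsums2 : ∀ (a : Fin n → ZMod p) (b : Fin n → Fin 2),
      k2 * ∑ i, σ (a i) (b i) * lam i + ∑ i, xx (a i) * lam i
        = ∑ i, vv (zc (a i) (b i)) * lam i := by
    intro a b
    rw [Finset.mul_sum, ← Finset.sum_add_distrib]
    apply Finset.sum_congr rfl; intro i _
    rw [← hv]; ring
  have hprodind : ∀ (a : Fin n → ZMod p) (b : Fin n → Fin 2) (x : X),
      F x a * (G x (fun i => yc (a i) (b i)) * H x (fun i => zc (a i) (b i)))
      = ((ind (x ∈ {x | S.P (∑ i, xx (a i) * lam i) x ∈ A ∧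
          S.P (k1 * ∑ i, σ (a i) (b i) * lam i + ∑ i, xx (a i) * lam i) x ∈ A ∧
          S.P (k2 * ∑ i, σ (a i) (b i) * lam i + ∑ i, xx (a i) * lam i) x ∈ A}) : ℝ) : ℂ) := by
    intro a b x
    rw [hsums1, hsums2, hF, hG, hH]
    simp only [Set.mem_ofPred_eq]
    rw [ind_and, ind_and]
    push_cast
    rfl
  have hmeas : ∀ (a : Fin n → ZMod p) (b : Fin n → Fin 2),
      MeasurableSet {x | S.P (∑ i, xx (a i) * lam i) x ∈ A ∧
          S.P (k1 * ∑ i, σ (a i) (b i) * lam i + ∑ i, xx (a i) * lam i) x ∈ A ∧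
          S.P (k2 * ∑ i, σ (a i) (b i) * lam i + ∑ i, xx (a i) * lam i) x ∈ A} := by
    intro a b
    exact (meas_P μ S hA _).inter ((meas_P μ S hA _).inter (meas_P μ S hA _))
  have hint : ∀ (a : Fin n → ZMod p) (b : Fin n → Fin 2),
      ∫ x, F x a * (G x (fun i => yc (a i) (b i)) * H x (fun i => zc (a i) (b i))) ∂μ
        = ((nz μ S A k1 k2 (∑ i, σ (a i) (b i) * lam i) : ℝ) : ℂ) := by
    intro a b
    simp only [hprodind]
    rw [integral_complex_ofReal, integral_ind μ (hmeas a b), shifted_z μ S hA]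
  have hintg : ∀ (a : Fin n → ZMod p) (b : Fin n → Fin 2),
      Integrable (fun x => F x a * (G x (fun i => yc (a i) (b i)) * H x (fun i => zc (a i) (b i))))
        μ := by
    intro a b
    simp only [hprodind]
    exact (integrable_ind μ (hmeas a b)).ofReal
  have hS : (∑ a : Fin n → ZMod p, ∑ b : Fin n → Fin 2, (∏ i, w (a i) (b i)) *
      ((nz μ S A k1 k2 (∑ i, σ (a i) (b i) * lam i) : ℝ) : ℂ))
      = ∫ x, ∑ a : Fin n → ZMod p, ∑ b : Fin n → Fin 2, (∏ i, w (a i) (b i)) *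
        (F x a * (G x (fun i => yc (a i) (b i)) * H x (fun i => zc (a i) (b i)))) ∂μ := by
    rw [integral_finsetSum]
    · apply Finset.sum_congr rfl; intro a _
      rw [integral_finsetSum]
      · apply Finset.sum_congr rfl; intro b _
        rw [integral_const_mul, hint]
      · intro b _
        exact (hintg a b).const_mul _
    · intro a _
      apply integrable_finsetSum
      intro b _
      exact (hintg a b).const_mul _
  have hC : ∀ x, ‖∑ a : Fin n → ZMod p, ∑ b : Fin n → Fin 2, (∏ i, w (a i) (b i)) *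
        (F x a * (G x (fun i => yc (a i) (b i)) * H x (fun i => zc (a i) (b i))))‖
        ≤ Real.sqrt ((p ^ 2 * (2 + Real.sqrt (4 - c))) ^ n) := by
    intro x
    apply Real.le_sqrt_of_sq_le
    exact game_cyc w hw c hc1 hcyc n (F x) (G x) (H x) (fun a => hbound _ _) (fun a => hbound _ _)
      (fun a => hbound _ _)
  have h5 : ‖∑ a : Fin n → ZMod p, ∑ b : Fin n → Fin 2, (∏ i, w (a i) (b i)) *
      ((nz μ S A k1 k2 (∑ i, σ (a i) (b i) * lam i) : ℝ) : ℂ)‖
      ≤ Real.sqrt ((p ^ 2 * (2 + Real.sqrt (4 - c))) ^ n) := by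
    rw [hS]
    have := norm_integral_le_of_norm_le_const (μ := μ) (Filter.Eventually.of_forall hC)
    simpa using this
  have h6 : (1 / 2) * ∑ a : Fin n → ZMod p, ∑ b : Fin n → Fin 2,
      nz μ S A k1 k2 (∑ i, σ (a i) (b i) * lam i)
      ≤ Real.sqrt ((p ^ 2 * (2 + Real.sqrt (4 - c))) ^ n) := by
    refine le_trans ?_ ((Complex.re_le_norm _).trans h5)
    rw [Complex.re_sum, Finset.mul_sum]
    apply Finset.sum_le_sum; intro a _
    rw [Complex.re_sum, Finset.mul_sum]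
    apply Finset.sum_le_sum; intro b _
    rw [Complex.re_mul_ofReal]
    by_cases hlt : (∏ i, w (a i) (b i)).re < 1 / 2
    · rw [h a b hlt]; simp
    · push Not at hlt
      exact mul_le_mul_of_nonneg_right hlt (nz_nonneg μ S A _ _ _)
  have h7 : 0 ≤ ∑ a : Fin n → ZMod p, ∑ b : Fin n → Fin 2,
      nz μ S A k1 k2 (∑ i, σ (a i) (b i) * lam i) :=
    Finset.sum_nonneg fun a _ => Finset.sum_nonneg fun b _ => nz_nonneg μ S A _ _ _
  have hnn : (0:ℝ) ≤ (p ^ 2 * (2 + Real.sqrt (4 - c))) ^ n := by positivity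
  have h8 := Real.sq_sqrt hnn
  have h9 : ((1 / 2) * ∑ a : Fin n → ZMod p, ∑ b : Fin n → Fin 2,
      nz μ S A k1 k2 (∑ i, σ (a i) (b i) * lam i)) ^ 2
      ≤ (Real.sqrt ((p ^ 2 * (2 + Real.sqrt (4 - c))) ^ n)) ^ 2 :=
    pow_le_pow_left₀ (by positivity) h6 2
  rw [h8] at h9
  have h10 : ((1 / 2) * ∑ a : Fin n → ZMod p, ∑ b : Fin n → Fin 2,
      nz μ S A k1 k2 (∑ i, σ (a i) (b i) * lam i)) ^ 2
      = (1 / 4) * (∑ a : Fin n → ZMod p, ∑ b : Fin n → Fin 2,
      nz μ S A k1 k2 (∑ i, σ (a i) (b i) * lam i)) ^ 2 := by ring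
  rw [h10] at h9
  linarith

theorem decay_z (w : ZMod p → Fin 2 → ℂ) (hw : ∀ a b, ‖w a b‖ = 1) (c : ℝ) (hc1 : c ≤ 1)
    (hcyc : ∀ v : ZMod p → ℂ,
      ∑ a, ‖(w a 0 * (starRingEnd ℂ) (w a 1)) * v (a + 1) +
        (starRingEnd ℂ) (w (a - 1) 0 * (starRingEnd ℂ) (w (a - 1) 1)) * v (a - 1)‖ ^ 2
        ≤ (4 - c) * ∑ a, ‖v a‖ ^ 2)
    (k1 k2 : ℤ) (σ : ZMod p → Fin 2 → ℤ) (xx uu vv : ZMod p → ℤ)
    (hu : ∀ a b, xx a + k1 * σ a b = uu (yc a b)) (hv : ∀ a b, xx a + k2 * σ a b = vv (zc a b))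
    (hA : MeasurableSet A) (ι : Type) [Fintype ι] [DecidableEq ι] (lam : ι → ℤ)
    (h : ∀ t : ι → ZMod p × Fin 2, (∏ i, w (t i).1 (t i).2).re < 1 / 2 →
      nz μ S A k1 k2 (∑ i, σ (t i).1 (t i).2 * lam i) = 0) :
    (avg (fun t : ι → ZMod p × Fin 2 => nz μ S A k1 k2 (∑ i, σ (t i).1 (t i).2 * lam i))) ^ 2
      ≤ 4 * ((2 + Real.sqrt (4 - c)) / 4) ^ (Fintype.card ι) := by
  set n := Fintype.card ι with hnn
  have e : ι ≃ Fin n := Fintype.equivFin ι
  have key := decay_fin_z μ S w hw c hc1 hcyc k1 k2 σ xx uu vv hu hv hA n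
    (fun i => lam (e.symm i)) ?_
  · have h1 : ∑ t : ι → ZMod p × Fin 2, nz μ S A k1 k2 (∑ i, σ (t i).1 (t i).2 * lam i)
        = ∑ a : Fin n → ZMod p, ∑ b : Fin n → Fin 2,
          nz μ S A k1 k2 (∑ i, σ (a i) (b i) * lam (e.symm i)) := by
      rw [← Fintype.sum_prod_type (f := fun x : (Fin n → ZMod p) × (Fin n → Fin 2) =>
        nz μ S A k1 k2 (∑ i, σ (x.1 i) (x.2 i) * lam (e.symm i)))]
      rw [← Equiv.sum_comp (Equiv.arrowProdEquivProdArrow (Fin n) (fun _ => ZMod p)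
        (fun _ => Fin 2)) (fun x : (Fin n → ZMod p) × (Fin n → Fin 2) =>
        nz μ S A k1 k2 (∑ i, σ (x.1 i) (x.2 i) * lam (e.symm i)))]
      rw [← Equiv.sum_comp (Equiv.arrowCongr e.symm (Equiv.refl (ZMod p × Fin 2)))
        (fun t : ι → ZMod p × Fin 2 => nz μ S A k1 k2 (∑ i, σ (t i).1 (t i).2 * lam i))]
      apply Finset.sum_congr rfl
      intro t _
      congr 1
      rw [← Equiv.sum_comp e (fun i => σ (((Equiv.arrowProdEquivProdArrow (Fin n)
        (fun _ => ZMod p) (fun _ => Fin 2)) t).1 i) (((Equiv.arrowProdEquivProdArrow (Fin n)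
        (fun _ => ZMod p) (fun _ => Fin 2)) t).2 i) * lam (e.symm i))]
      apply Finset.sum_congr rfl
      intro i _
      simp [Equiv.arrowCongr, Equiv.arrowProdEquivProdArrow]
    unfold avg
    rw [h1, div_pow]
    have hp0 : (0:ℝ) < p := by
      have := NeZero.pos p
      exact_mod_cast this
    have h2 : (Fintype.card (ι → ZMod p × Fin 2) : ℝ) = (2 * p) ^ n := by
      rw [Fintype.card_fun, Fintype.card_prod, ZMod.card, Fintype.card_fin]
      push_cast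
      rw [mul_comm]
    rw [h2, div_le_iff₀ (by positivity)]
    refine key.trans (le_of_eq ?_)
    rw [← pow_mul, mul_comm n 2, pow_mul, mul_assoc, ← mul_pow]
    congr 2
    field_simp
    ring
  · intro a b hab
    have h3 := h (fun i => (a (e i), b (e i))) ?_
    · rw [← Equiv.sum_comp e (fun i => σ (a i) (b i) * lam (e.symm i))]
      simpa using h3
    · rw [← Equiv.prod_comp e (fun i => w (a i) (b i))] at hab
      exact hab

/-- letters -/
def ltr (k1 k2 : ℤ) : Fin 3 → ℤ := ![0, k1, k2]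

/-- base point of a line -/
def bz (k1 k2 : ℤ) {d : ℕ} (φ : Fin d → Fin 3 ⊕ Unit) (e : Fin d → ℤ) : ℤ :=
  ∑ j, Sum.elim (fun c : Fin 3 => ltr k1 k2 c * e j) (fun _ => 0) (φ j)

/-- step of a line -/
def sz {d : ℕ} (φ : Fin d → Fin 3 ⊕ Unit) (e : Fin d → ℤ) : ℤ :=
  ∑ j, Sum.elim (fun _ : Fin 3 => 0) (fun _ => e j) (φ j)

lemma line_sum_z (k1 k2 : ℤ) {d : ℕ} (L : Sub Unit (Fin d)) (e : Fin d → ℤ) (a : Fin 3) :
    ∑ j, ltr k1 k2 (L.app (fun _ => a) j) * e j
      = ltr k1 k2 a * sz L.φ e + bz k1 k2 L.φ e := by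
  unfold sz bz Sub.app
  rw [Finset.mul_sum, ← Finset.sum_add_distrib]
  apply Finset.sum_congr rfl
  intro j _
  cases h : L.φ j with
  | inl c => simp
  | inr k => simp

theorem ip_roth_z (k1 k2 : ℤ) (hA : MeasurableSet A) (δ : ℝ) (hδ : 0 < δ)
    (hμ : δ ≤ μ.real A) (d : ℕ)
    (hd : ∀ D : Pt (Fin d) → Prop, δ / 2 ≤ avg (fun x => ind (D x)) →
      ∃ L : Sub Unit (Fin d), ∀ a : Fin 3, D (L.app (fun _ => a)))
    (e : Fin d → ℤ) :
    δ / 2 ≤ ∑ φ : Fin d → Fin 3 ⊕ Unit, ind (∃ j, φ j = Sum.inr ()) *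
      nz μ S A k1 k2 (sz φ e) := by
  classical
  set B : Pt (Fin d) → Set X := fun z => {x | S.P (∑ j, ltr k1 k2 (z j) * e j) x ∈ A} with hB
  set C : (Fin d → Fin 3 ⊕ Unit) → Set X := fun φ => {x | S.P (bz k1 k2 φ e) x ∈ A ∧
    S.P (k1 * sz φ e + bz k1 k2 φ e) x ∈ A ∧ S.P (k2 * sz φ e + bz k1 k2 φ e) x ∈ A} with hC
  have hBm : ∀ z, MeasurableSet (B z) := fun z => meas_P μ S hA _
  have hCm : ∀ φ, MeasurableSet (C φ) := fun φ =>
    (meas_P μ S hA _).inter ((meas_P μ S hA _).inter (meas_P μ S hA _))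
  have hBμ : ∀ z, μ.real (B z) = μ.real A := by
    intro z
    have h1 := (S.mp (∑ j, ltr k1 k2 (z j) * e j)).measure_preimage hA.nullMeasurableSet
    unfold Measure.real
    rw [← h1]
    rfl
  have hCμ : ∀ φ, μ.real (C φ) = nz μ S A k1 k2 (sz φ e) := fun φ => shifted_z μ S hA _ _ _ _
  have hpt : ∀ x, avg (fun z : Pt (Fin d) => ind (x ∈ B z)) ≤ δ / 2 +
      ∑ φ : Fin d → Fin 3 ⊕ Unit, ind (∃ j, φ j = Sum.inr ()) * ind (x ∈ C φ) := by
    intro x
    have hnn : ∀ φ : Fin d → Fin 3 ⊕ Unit, 0 ≤ ind (∃ j, φ j = Sum.inr ()) * ind (x ∈ C φ) :=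
      fun φ => mul_nonneg (ind_nonneg _) (ind_nonneg _)
    by_cases hx : δ / 2 ≤ avg (fun z : Pt (Fin d) => ind (x ∈ B z))
    · obtain ⟨L, hL⟩ := hd (fun z => x ∈ B z) hx
      have h1 : x ∈ C L.φ := by
        have g0 := hL 0
        have g1 := hL 1
        have g2 := hL 2
        simp only [hB, Set.mem_ofPred_eq, line_sum_z] at g0 g1 g2
        simp only [hC, Set.mem_ofPred_eq]
        refine ⟨by simpa [ltr] using g0, by simpa [ltr] using g1, by simpa [ltr] using g2⟩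
      have h2 : ∃ j, L.φ j = Sum.inr () := L.surj ()
      have h3 : ind (∃ j, L.φ j = Sum.inr ()) * ind (x ∈ C L.φ) ≤
          ∑ φ : Fin d → Fin 3 ⊕ Unit, ind (∃ j, φ j = Sum.inr ()) * ind (x ∈ C φ) :=
        Finset.single_le_sum (f := fun φ : Fin d → Fin 3 ⊕ Unit =>
          ind (∃ j, φ j = Sum.inr ()) * ind (x ∈ C φ)) (fun φ _ => hnn φ) (Finset.mem_univ L.φ)
      rw [ind_true h1, ind_true h2] at h3
      have h4 : avg (fun z : Pt (Fin d) => ind (x ∈ B z)) ≤ 1 := avg_le_one fun z => ind_le_one _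
      linarith
    · push Not at hx
      have := Finset.sum_nonneg (s := Finset.univ) fun φ _ => hnn φ
      linarith
  have hi1 : Integrable (fun x => avg (fun z : Pt (Fin d) => ind (x ∈ B z))) μ := by
    unfold avg
    apply Integrable.div_const
    apply integrable_finsetSum
    intro z _
    exact integrable_ind μ (hBm z)
  have hi2 : Integrable (fun x => δ / 2 +
      ∑ φ : Fin d → Fin 3 ⊕ Unit, ind (∃ j, φ j = Sum.inr ()) * ind (x ∈ C φ)) μ := by
    apply Integrable.add (integrable_const _)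
    apply integrable_finsetSum
    intro φ _
    exact (integrable_ind μ (hCm φ)).const_mul _
  have h1 := integral_mono hi1 hi2 hpt
  have e1 : ∫ x, avg (fun z : Pt (Fin d) => ind (x ∈ B z)) ∂μ = μ.real A := by
    unfold avg
    rw [integral_div, integral_finsetSum]
    · have : ∀ z ∈ (Finset.univ : Finset (Pt (Fin d))), ∫ x, ind (x ∈ B z) ∂μ = μ.real A := by
        intro z _
        rw [integral_ind μ (hBm z), hBμ]
      rw [Finset.sum_congr rfl this]
      exact avg_const (Ω := Pt (Fin d)) (μ.real A)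
    · intro z _
      exact integrable_ind μ (hBm z)
  have e2 : ∫ x, (δ / 2 + ∑ φ : Fin d → Fin 3 ⊕ Unit,
      ind (∃ j, φ j = Sum.inr ()) * ind (x ∈ C φ)) ∂μ
      = δ / 2 + ∑ φ : Fin d → Fin 3 ⊕ Unit, ind (∃ j, φ j = Sum.inr ()) *
          nz μ S A k1 k2 (sz φ e) := by
    rw [integral_add (integrable_const _), integral_finsetSum]
    · congr 1
      · simp
      · apply Finset.sum_congr rfl
        intro φ _
        rw [integral_const_mul, integral_ind μ (hCm φ), hCμ]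
    · intro φ _
      exact (integrable_ind μ (hCm φ)).const_mul _
    · apply integrable_finsetSum
      intro φ _
      exact (integrable_ind μ (hCm φ)).const_mul _
  rw [e1, e2] at h1
  linarith

end dyn

end Pool.Agent.Helper406.Rec2
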