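import Pool.Agent.Helper406.Rec2.Data

/-!
Positivity for patterns `0, k1, k2` with an odd prime dividing `k1 + k2` but not `k1`.
-/

namespace Pool.Agent.Helper406.Rec2

open Finset MeasureTheory
open Pool.Agent.Helper406.Rec (avg ind ind_true ind_false ind_nonneg ind_le_one ind_and
  integral_ind integrable_ind avg_mono avg_const avg_le_one avg_sum avg_mul_left avg_congr
  Pt Sub avg_restrict' dhj3)

universe u

theorem positivity_core {X : Type u} [MeasurableSpace X] (μ : Measure X) [IsProbabilityMeasure μ]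
    (S : Act μ) {A : Set X} (hA : MeasurableSet A) (hpos : 0 < μ A)
    (p : ℕ) [Fact p.Prime] (hodd : Odd p) (k1 k2 : ℤ)
    (hsum : (p : ℤ) ∣ k1 + k2) (hk : ¬ (p : ℤ) ∣ k1) :
    ∃ N : ℕ, InT N ∧ 0 < nz μ S A k1 k2 N := by
  classical
  by_contra hcon
  push Not at hcon
  have hzero : ∀ N : ℕ, InT N → nz μ S A k1 k2 N = 0 := fun N hN =>
    le_antisymm (hcon N hN) (nz_nonneg μ S A k1 k2 N)
  set δ : ℝ := μ.real A with hδdef
  have hδ : 0 < δ := by
    rw [hδdef, Measure.real]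
    exact ENNReal.toReal_pos hpos.ne' (measure_ne_top μ A)
  have hp3 : 3 ≤ p := by
    have h2 := (Fact.out : p.Prime).two_le
    obtain ⟨m, hm⟩ := hodd
    omega
  obtain ⟨σ, xx, uu, vv, c, hc0, hc1, hσ, hu, hv, hcyc⟩ := cycle_data p hodd k1 k2 hsum hk
  obtain ⟨M, hM⟩ : ∃ M, ∀ a b, σ a b ≤ M := by
    refine ⟨∑ a, ∑ b, σ a b, fun a b => ?_⟩
    calc σ a b ≤ ∑ b, σ a b :=
          Finset.single_le_sum (f := fun b => σ a b) (fun _ _ => Nat.zero_le _) (Finset.mem_univ b)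
      _ ≤ ∑ a, ∑ b, σ a b :=
          Finset.single_le_sum (f := fun a => ∑ b, σ a b) (fun _ _ => Nat.zero_le _)
            (Finset.mem_univ a)
  obtain ⟨d, hd⟩ := dhj3 (δ / 2) (by linarith)
  set cst : ℝ := δ / 2 / 4 ^ d with hcst
  have hcpos : 0 < cst := by positivity
  set ρ : ℝ := (2 + Real.sqrt (4 - c)) / 4 with hρ
  have hρ0 : 0 < ρ := by positivity
  have hρ1 : ρ < 1 := by
    have : Real.sqrt (4 - c) < 2 := by
      rw [show (2:ℝ) = Real.sqrt 4 by
        rw [show (4:ℝ) = 2 ^ 2 by norm_num]; exact (Real.sqrt_sq (by norm_num)).symm]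
      exact Real.sqrt_lt_sqrt (by linarith) (by linarith)
    rw [hρ]; linarith
  obtain ⟨m, hm⟩ : ∃ m : ℕ, ρ ^ m < cst ^ 2 / 4 :=
    exists_pow_lt_of_lt_one (by positivity) hρ1
  let idx : Fin d × Fin m → ℕ := fun q => Nat.pair (p - 3) (M + (finProdFinEquiv q : ℕ))
  have hidx : Function.Injective idx := by
    intro q r hqr
    have h1 := (Nat.pair_eq_pair.1 hqr).2
    exact finProdFinEquiv.injective (Fin.ext (by omega))
  have hqq : ∀ q, qq (idx q) = p := by
    intro q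
    simp only [idx, qq, Nat.unpair_pair]
    omega
  have hge : ∀ q, M ≤ idx q := by
    intro q
    have := Nat.right_le_pair (p - 3) (M + (finProdFinEquiv q : ℕ))
    simp only [idx]
    omega
  let ev : (Fin d × Fin m → ZMod p × Fin 2) → Fin d → ℤ := fun t j =>
    ∑ i : Fin m, (σ (t (j, i)).1 (t (j, i)).2 : ℤ) * (Lm (idx (j, i)) : ℤ)
  have h1 : ∀ t, δ / 2 ≤ ∑ φ : Fin d → Fin 3 ⊕ Unit, ind (∃ j, φ j = Sum.inr ()) *
      nz μ S A k1 k2 (sz φ (ev t)) := by
    intro t
    exact ip_roth_z μ S k1 k2 hA δ hδ le_rfl d (fun D hD => hd (Fin d) (by simp) D hD) (ev t)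
  have h2 : δ / 2 ≤ ∑ φ : Fin d → Fin 3 ⊕ Unit, ind (∃ j, φ j = Sum.inr ()) *
      avg (fun t => nz μ S A k1 k2 (sz φ (ev t))) := by
    have h3 : avg (fun _ : Fin d × Fin m → ZMod p × Fin 2 => δ / 2) ≤
        avg (fun t => ∑ φ : Fin d → Fin 3 ⊕ Unit, ind (∃ j, φ j = Sum.inr ()) *
      nz μ S A k1 k2 (sz φ (ev t))) := avg_mono h1
    rw [avg_const, avg_sum] at h3
    refine h3.trans (le_of_eq ?_)
    apply Finset.sum_congr rfl; intro φ _
    rw [avg_mul_left]
  obtain ⟨φ, hφ⟩ : ∃ φ : Fin d → Fin 3 ⊕ Unit, cst ≤ ind (∃ j, φ j = Sum.inr ()) *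
      avg (fun t => nz μ S A k1 k2 (sz φ (ev t))) := by
    by_contra hcon2
    push Not at hcon2
    have h3 : ∑ φ : Fin d → Fin 3 ⊕ Unit, ind (∃ j, φ j = Sum.inr ()) *
      avg (fun t => nz μ S A k1 k2 (sz φ (ev t))) < ∑ _φ : Fin d → Fin 3 ⊕ Unit, cst :=
      Finset.sum_lt_sum_of_nonempty Finset.univ_nonempty fun φ _ => hcon2 φ
    have h4 : ∑ _φ : Fin d → Fin 3 ⊕ Unit, cst = δ / 2 := by
      rw [Finset.sum_const, Finset.card_univ, nsmul_eq_mul, Fintype.card_fun]
      simp only [Fintype.card_sum, Fintype.card_fin, Fintype.card_unit]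
      rw [hcst]
      push_cast
      norm_num
      field_simp
    linarith
  have hline : ∃ j, φ j = Sum.inr () := by
    by_contra hno
    rw [ind_false hno, zero_mul] at hφ
    linarith
  rw [ind_true hline, one_mul] at hφ
  obtain ⟨j0, hj0⟩ := hline
  have hst : ∀ t, sz φ (ev t) = ∑ q : {q : Fin d × Fin m // φ q.1 = Sum.inr ()},
      (σ (t q).1 (t q).2 : ℤ) * (Lm (idx q) : ℤ) := by
    intro t
    unfold sz
    have e1 : ∑ q : {q : Fin d × Fin m // φ q.1 = Sum.inr ()},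
        (σ (t q).1 (t q).2 : ℤ) * (Lm (idx q) : ℤ)
        = ∑ q : Fin d × Fin m, if φ q.1 = Sum.inr () then
          (σ (t q).1 (t q).2 : ℤ) * (Lm (idx q) : ℤ) else 0 := by
      rw [← Finset.sum_filter]
      exact (Finset.sum_subtype (p := fun q : Fin d × Fin m => φ q.1 = Sum.inr ()) _
        (by intro x; simp) (fun q : Fin d × Fin m =>
          (σ (t q).1 (t q).2 : ℤ) * (Lm (idx q) : ℤ))).symm
    rw [e1, Fintype.sum_prod_type]
    apply Finset.sum_congr rfl; intro j _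
    cases hj : φ j with
    | inl a => simp [hj]
    | inr k => simp [hj, ev]
  have h5 : avg (fun t => nz μ S A k1 k2 (sz φ (ev t)))
      = avg (fun t : {q : Fin d × Fin m // φ q.1 = Sum.inr ()} → ZMod p × Fin 2 =>
        nz μ S A k1 k2 (∑ q, (σ (t q).1 (t q).2 : ℤ) * (Lm (idx q) : ℤ))) := by
    rw [← avg_restrict' (fun q : Fin d × Fin m => φ q.1 = Sum.inr ())
      (fun t : {q : Fin d × Fin m // φ q.1 = Sum.inr ()} → ZMod p × Fin 2 =>
        nz μ S A k1 k2 (∑ q, (σ (t q).1 (t q).2 : ℤ) * (Lm (idx q) : ℤ)))]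
    apply avg_congr; intro t
    rw [hst]
  have h6 := decay_z μ S (fun a b => ee (om p (σ a b))) (fun a b => norm_ee _) c hc1 hcyc k1 k2
    (fun a b => (σ a b : ℤ)) xx uu vv hu hv hA {q : Fin d × Fin m // φ q.1 = Sum.inr ()}
    (fun q => (Lm (idx q) : ℤ)) ?_
  · rw [← h5] at h6
    have h7 : m ≤ Fintype.card {q : Fin d × Fin m // φ q.1 = Sum.inr ()} := by
      have : Fintype.card (Fin m) ≤ Fintype.card {q : Fin d × Fin m // φ q.1 = Sum.inr ()} := by
        apply Fintype.card_le_of_injective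
          (fun i : Fin m => (⟨(j0, i), hj0⟩ : {q : Fin d × Fin m // φ q.1 = Sum.inr ()}))
        intro a b hab
        simpa using hab
      simpa using this
    have h8 : ρ ^ (Fintype.card {q : Fin d × Fin m // φ q.1 = Sum.inr ()}) ≤ ρ ^ m :=
      pow_le_pow_of_le_one hρ0.le hρ1.le h7
    have h9 : cst ^ 2 ≤ (avg (fun t => nz μ S A k1 k2 (sz φ (ev t)))) ^ 2 :=
      pow_le_pow_left₀ hcpos.le hφ 2
    linarith
  · intro t ht
    rw [ee_sum] at ht
    have hfar : Far (∑ q, om p (σ (t q).1 (t q).2)) := by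
      by_contra hnf
      have := ee_re_ge hnf
      linarith
    have h10 := inT_of (fun q : {q : Fin d × Fin m // φ q.1 = Sum.inr ()} => idx q)
      (fun a b hab => Subtype.ext (hidx hab)) (fun q => σ (t q).1 (t q).2)
      (fun q => ⟨by rw [hqq]; exact hσ _ _, (hM _ _).trans (hge _)⟩)
      (by
        have : ∀ q : {q : Fin d × Fin m // φ q.1 = Sum.inr ()},
            om (qq (idx q)) (σ (t q).1 (t q).2) = om p (σ (t q).1 (t q).2) := by
          intro q; rw [hqq]
        rw [Finset.sum_congr rfl fun q _ => this q]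
        exact hfar)
    have h11 := hzero _ h10
    push_cast at h11
    exact h11

end Pool.Agent.Helper406.Rec2
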