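import Pool.Agent.Helper406.Rec.Tensor

/-!
The norm of a twisted odd cycle and the associated three-player game.
-/

namespace Pool.Agent.Helper406.Rec2

open Finset
open Pool.Agent.Helper406.Rec (tensor_bound tensor_form)

set_option linter.unusedSectionVars false

section cyc
variable {p : ℕ} [NeZero p]

lemma odd_two_mul_bij (hodd : Odd p) (a0 : ZMod p) :
    Function.Injective (fun k : Fin p => a0 + 2 * ((k : ℕ) : ZMod p)) := by
  intro k l hkl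
  have h1 : (2 : ZMod p) * ((k : ℕ) : ZMod p) = 2 * ((l : ℕ) : ZMod p) := by
    simpa using hkl
  have h2 : IsUnit (2 : ZMod p) := by
    have : ((2 : ℕ) : ZMod p) = 2 := by norm_cast
    rw [← this, ZMod.isUnit_iff_coprime]
    exact Nat.coprime_two_left.2 hodd
  have h3 := h2.mul_left_cancel h1
  have h4 : (k : ℕ) = l := by
    have h5 := congrArg ZMod.val h3
    rw [ZMod.val_natCast, ZMod.val_natCast, Nat.mod_eq_of_lt k.2, Nat.mod_eq_of_lt l.2] at h5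
    exact h5
  exact Fin.ext h4

lemma sum_step (hodd : Odd p) (a0 : ZMod p) (f : ZMod p → ℝ) :
    ∑ k ∈ range p, f (a0 + 2 * ((k : ℕ) : ZMod p)) = ∑ a, f a := by
  rw [← Fin.sum_univ_eq_sum_range (fun k => f (a0 + 2 * ((k : ℕ) : ZMod p))) p]
  have hb : Function.Bijective (fun k : Fin p => a0 + 2 * ((k : ℕ) : ZMod p)) := by
    rw [Fintype.bijective_iff_injective_and_card]
    refine ⟨odd_two_mul_bij hodd a0, ?_⟩
    rw [Fintype.card_fin, ZMod.card]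
  exact Fintype.sum_bijective _ hb _ _ (fun k => rfl)

lemma prod_step (hodd : Odd p) (a0 : ZMod p) (f : ZMod p → ℂ) :
    ∏ k ∈ range p, f (a0 + 2 * ((k : ℕ) : ZMod p)) = ∏ a, f a := by
  rw [← Fin.prod_univ_eq_prod_range (fun k => f (a0 + 2 * ((k : ℕ) : ZMod p))) p]
  have hb : Function.Bijective (fun k : Fin p => a0 + 2 * ((k : ℕ) : ZMod p)) := by
    rw [Fintype.bijective_iff_injective_and_card]
    refine ⟨odd_two_mul_bij hodd a0, ?_⟩
    rw [Fintype.card_fin, ZMod.card]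
  exact Fintype.prod_bijective _ hb _ _ (fun k => rfl)

/-- unimodular recursion -/
lemma recursion_bound (x : ℕ → ℂ) (β : ℕ → ℂ) (r : ℕ → ℝ) (hβ : ∀ k, ‖β k‖ = 1)
    (hx : ∀ k, ‖x (k + 1) - β k * x k‖ ≤ r k) (n : ℕ) :
    ‖x n - (∏ k ∈ range n, β k) * x 0‖ ≤ ∑ k ∈ range n, r k := by
  induction n with
  | zero => simp
  | succ n ih =>
    rw [Finset.prod_range_succ, Finset.sum_range_succ]
    have e : x (n + 1) - (∏ k ∈ range n, β k) * β n * x 0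
        = (x (n + 1) - β n * x n) + β n * (x n - (∏ k ∈ range n, β k) * x 0) := by ring
    rw [e]
    refine (norm_add_le _ _).trans ?_
    rw [norm_mul, hβ, one_mul]
    have := hx n
    linarith

theorem cyc_norm (hodd : Odd p) (α : ZMod p → ℂ) (hα : ∀ a, ‖α a‖ = 1)
    (hol : (∏ a, α a) ^ 2 ≠ 1) :
    ∃ c : ℝ, 0 < c ∧ c ≤ 1 ∧ ∀ v : ZMod p → ℂ,
      ∑ a, ‖α a * v (a + 1) + (starRingEnd ℂ) (α (a - 1)) * v (a - 1)‖ ^ 2
        ≤ (4 - c) * ∑ a, ‖v a‖ ^ 2 := by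
  set h : ℂ := (∏ a, (starRingEnd ℂ) (α a)) ^ 2 with hh
  have hh1 : h ≠ 1 := by
    intro hc
    apply hol
    have := congrArg (starRingEnd ℂ) hc
    rw [hh, map_pow, map_prod, map_one] at this
    simpa using this
  have hnpos : 0 < ‖1 - h‖ := norm_pos_iff.2 (sub_ne_zero.2 (Ne.symm hh1))
  have hp0 : (0:ℝ) < p := by
    have := NeZero.pos p
    exact_mod_cast this
  set c0 : ℝ := ‖1 - h‖ ^ 2 / (p:ℝ) ^ 2 with hc0
  have hc0pos : 0 < c0 := by positivity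
  refine ⟨min 1 c0, lt_min one_pos hc0pos, min_le_left _ _, ?_⟩
  intro v
  set r : ZMod p → ℂ := fun a => α a * v (a + 1) - (starRingEnd ℂ) (α (a - 1)) * v (a - 1) with hr
  have hnorm : ∀ a, ‖α a * v (a + 1) + (starRingEnd ℂ) (α (a - 1)) * v (a - 1)‖ ^ 2
      = 2 * ‖v (a + 1)‖ ^ 2 + 2 * ‖v (a - 1)‖ ^ 2 - ‖r a‖ ^ 2 := by
    intro a
    have h1 := parallelogram_law_with_norm ℝ (α a * v (a + 1))
      ((starRingEnd ℂ) (α (a - 1)) * v (a - 1))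
    rw [norm_mul, norm_mul, Complex.norm_conj, hα, hα] at h1
    have h2 : ‖r a‖ = ‖α a * v (a + 1) - (starRingEnd ℂ) (α (a - 1)) * v (a - 1)‖ := rfl
    rw [h2]
    nlinarith [h1]
  have hs1 : ∑ a, ‖v (a + 1)‖ ^ 2 = ∑ a, ‖v a‖ ^ 2 :=
    Equiv.sum_comp (Equiv.addRight (1 : ZMod p)) (fun a => ‖v a‖ ^ 2)
  have hs2 : ∑ a, ‖v (a - 1)‖ ^ 2 = ∑ a, ‖v a‖ ^ 2 :=
    Equiv.sum_comp (Equiv.subRight (1 : ZMod p)) (fun a => ‖v a‖ ^ 2)
  have htot : ∑ a, ‖α a * v (a + 1) + (starRingEnd ℂ) (α (a - 1)) * v (a - 1)‖ ^ 2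
      = 4 * ∑ a, ‖v a‖ ^ 2 - ∑ a, ‖r a‖ ^ 2 := by
    rw [Finset.sum_congr rfl fun a _ => hnorm a, Finset.sum_sub_distrib, Finset.sum_add_distrib,
      ← Finset.mul_sum, ← Finset.mul_sum, hs1, hs2]
    ring
  -- each coordinate is controlled
  have hpt : ∀ a0, ‖1 - h‖ * ‖v a0‖ ≤ ∑ a, ‖r a‖ := by
    intro a0
    have h1 := recursion_bound (fun k => v (a0 + 2 * ((k : ℕ) : ZMod p)))
      (fun k => (starRingEnd ℂ) (α (a0 + 1 + 2 * ((k : ℕ) : ZMod p))) *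
        (starRingEnd ℂ) (α (a0 + 2 * ((k : ℕ) : ZMod p))))
      (fun k => ‖r (a0 + 1 + 2 * ((k : ℕ) : ZMod p))‖) ?_ ?_ p
    · rw [sum_step hodd (a0 + 1) (fun a => ‖r a‖), Finset.prod_mul_distrib,
        prod_step hodd (a0 + 1) (fun a => (starRingEnd ℂ) (α a)),
        prod_step hodd a0 (fun a => (starRingEnd ℂ) (α a))] at h1
      have e1 : v (a0 + 2 * ((p : ℕ) : ZMod p)) = v a0 := by simp
      have e2 : v (a0 + 2 * ((0 : ℕ) : ZMod p)) = v a0 := by simp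
      rw [e1, e2] at h1
      have e3 : v a0 - (∏ a, (starRingEnd ℂ) (α a)) * (∏ a, (starRingEnd ℂ) (α a)) * v a0
          = (1 - h) * v a0 := by rw [hh]; ring
      rw [e3, norm_mul] at h1
      exact h1
    · intro k
      rw [norm_mul, Complex.norm_conj, Complex.norm_conj, hα, hα, one_mul]
    · intro k
      have e1 : (a0 + 1 + 2 * ((k : ℕ) : ZMod p)) + 1 = a0 + 2 * (((k + 1 : ℕ)) : ZMod p) := by
        push_cast; ring
      have e2 : (a0 + 1 + 2 * ((k : ℕ) : ZMod p)) - 1 = a0 + 2 * ((k : ℕ) : ZMod p) := by ring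
      have hu : (starRingEnd ℂ) (α (a0 + 1 + 2 * ((k : ℕ) : ZMod p))) *
          α (a0 + 1 + 2 * ((k : ℕ) : ZMod p)) = 1 := by
        rw [mul_comm, Complex.mul_conj, Complex.normSq_eq_norm_sq, hα]; norm_num
      have e3 : v (a0 + 2 * (((k + 1 : ℕ)) : ZMod p))
          - (starRingEnd ℂ) (α (a0 + 1 + 2 * ((k : ℕ) : ZMod p))) *
            (starRingEnd ℂ) (α (a0 + 2 * ((k : ℕ) : ZMod p))) * v (a0 + 2 * ((k : ℕ) : ZMod p))
          = (starRingEnd ℂ) (α (a0 + 1 + 2 * ((k : ℕ) : ZMod p))) *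
            r (a0 + 1 + 2 * ((k : ℕ) : ZMod p)) := by
        rw [hr]
        simp only
        rw [e1, e2, mul_sub, ← mul_assoc, hu, one_mul]
        ring
      rw [e3, norm_mul, Complex.norm_conj, hα, one_mul]
  have hsum : (∑ a, ‖r a‖) ^ 2 ≤ (p : ℝ) * ∑ a, ‖r a‖ ^ 2 := by
    have := sq_sum_le_card_mul_sum_sq (s := (Finset.univ : Finset (ZMod p))) (f := fun a => ‖r a‖)
    rwa [Finset.card_univ, ZMod.card] at this
  have hpt2 : ∀ a0, ‖1 - h‖ ^ 2 * ‖v a0‖ ^ 2 ≤ (p : ℝ) * ∑ a, ‖r a‖ ^ 2 := by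
    intro a0
    rw [← mul_pow]
    exact (pow_le_pow_left₀ (by positivity) (hpt a0) 2).trans hsum
  have hall : ‖1 - h‖ ^ 2 * ∑ a, ‖v a‖ ^ 2 ≤ (p : ℝ) ^ 2 * ∑ a, ‖r a‖ ^ 2 := by
    rw [Finset.mul_sum]
    refine (Finset.sum_le_sum fun a _ => hpt2 a).trans ?_
    rw [Finset.sum_const, Finset.card_univ, ZMod.card, nsmul_eq_mul]
    nlinarith
  have hR : c0 * ∑ a, ‖v a‖ ^ 2 ≤ ∑ a, ‖r a‖ ^ 2 := by
    rw [hc0, div_mul_eq_mul_div, div_le_iff₀ (by positivity)]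
    linarith
  rw [htot]
  have hv0 : 0 ≤ ∑ a, ‖v a‖ ^ 2 := Finset.sum_nonneg fun a _ => sq_nonneg _
  have hm : min 1 c0 * ∑ a, ‖v a‖ ^ 2 ≤ c0 * ∑ a, ‖v a‖ ^ 2 :=
    mul_le_mul_of_nonneg_right (min_le_right _ _) hv0
  linarith

end cyc

end Pool.Agent.Helper406.Rec2
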