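import Pool.Agent.Helper406.Rec2.Act

/-!
The digit set, and the arithmetic of the odd cycle.
-/

namespace Pool.Agent.Helper406.Rec2

open Finset
open scoped Nat

/-- `exp (2 π i r)` -/
noncomputable def ee (r : ℝ) : ℂ := Complex.exp ((2 * Real.pi * r : ℝ) * Complex.I)

lemma norm_ee (r : ℝ) : ‖ee r‖ = 1 := Complex.norm_exp_ofReal_mul_I _

lemma ee_re (r : ℝ) : (ee r).re = Real.cos (2 * Real.pi * r) := Complex.exp_ofReal_mul_I_re _

lemma ee_add (r s : ℝ) : ee (r + s) = ee r * ee s := by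
  unfold ee
  rw [← Complex.exp_add]
  congr 1
  push_cast; ring

lemma ee_zero : ee 0 = 1 := by simp [ee]

lemma ee_sum {ι : Type} (s : Finset ι) (f : ι → ℝ) : ∏ i ∈ s, ee (f i) = ee (∑ i ∈ s, f i) := by
  classical
  induction s using Finset.induction_on with
  | empty => simp [ee_zero]
  | insert a s ha ih => rw [Finset.prod_insert ha, Finset.sum_insert ha, ee_add, ih]

lemma ee_conj (r : ℝ) : (starRingEnd ℂ) (ee r) = ee (-r) := by
  unfold ee
  rw [← Complex.exp_conj]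
  congr 1
  rw [map_mul, Complex.conj_I, Complex.conj_ofReal]
  push_cast; ring

lemma ee_eq_one {r : ℝ} (h : ee r = 1) : ∃ n : ℤ, r = n := by
  unfold ee at h
  rw [Complex.exp_eq_one_iff] at h
  obtain ⟨n, hn⟩ := h
  refine ⟨n, ?_⟩
  have h2 : ((2 * Real.pi * r : ℝ) : ℂ) = n * (2 * Real.pi) := by
    have hI : Complex.I ≠ 0 := Complex.I_ne_zero
    have : ((2 * Real.pi * r : ℝ) : ℂ) * Complex.I = (n * (2 * Real.pi)) * Complex.I := by
      rw [hn]; ring
    exact mul_right_cancel₀ hI this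
  have h3 : 2 * Real.pi * r = n * (2 * Real.pi) := by exact_mod_cast h2
  have hpi := Real.pi_pos
  have h4 : (2 * Real.pi) * r = (2 * Real.pi) * n := by linarith
  exact mul_left_cancel₀ (by positivity) h4

/-- at distance at least `1/10` from the integers -/
def Far (r : ℝ) : Prop := ∀ k : ℤ, 1 / 10 ≤ |r - k|

lemma ee_re_ge {r : ℝ} (h : ¬ Far r) : 1 / 2 ≤ (ee r).re := by
  unfold Far at h
  push Not at h
  obtain ⟨k, hk⟩ := h
  rw [ee_re]
  have h1 : Real.cos (2 * Real.pi * r) = Real.cos (2 * Real.pi * (r - k)) := by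
    have : 2 * Real.pi * (r - k) = 2 * Real.pi * r - k * (2 * Real.pi) := by ring
    rw [this, Real.cos_sub_int_mul_two_pi]
  rw [h1]
  have h2 := Real.one_sub_sq_div_two_le_cos (x := 2 * Real.pi * (r - k))
  have h3 : (r - k) ^ 2 ≤ (1 / 10) ^ 2 := by
    rw [← sq_abs]
    exact pow_le_pow_left₀ (abs_nonneg _) hk.le 2
  have h4 : (2 * Real.pi) ^ 2 ≤ 7 ^ 2 :=
    pow_le_pow_left₀ (by positivity) (by linarith [Real.pi_lt_d2]) 2
  have h5 : (2 * Real.pi * (r - k)) ^ 2 ≤ 7 ^ 2 * (1 / 10) ^ 2 := by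
    rw [mul_pow]
    exact mul_le_mul h4 h3 (sq_nonneg _) (by norm_num)
  linarith

/-- the class of a digit, modulo one -/
noncomputable def om (q s : ℕ) : ℝ := (((s % q : ℕ) : ℝ) - (s : ℝ) ^ 2) / (q : ℝ) ^ 2

theorem cycle_data (p : ℕ) [Fact p.Prime] (hodd : Odd p) (k1 k2 : ℤ)
    (hsum : (p : ℤ) ∣ k1 + k2) (hk : ¬ (p : ℤ) ∣ k1) :
    ∃ (σ : ZMod p → Fin 2 → ℕ) (xx uu vv : ZMod p → ℤ) (c : ℝ), 0 < c ∧ c ≤ 1 ∧
      (∀ a b, σ a b % p ≤ 1) ∧
      (∀ a b, xx a + k1 * σ a b = uu (yc a b)) ∧ (∀ a b, xx a + k2 * σ a b = vv (zc a b)) ∧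
      (∀ v : ZMod p → ℂ,
      ∑ a, ‖(ee (om p (σ a 0)) * (starRingEnd ℂ) (ee (om p (σ a 1)))) * v (a + 1) +
        (starRingEnd ℂ) (ee (om p (σ (a - 1) 0)) * (starRingEnd ℂ) (ee (om p (σ (a - 1) 1)))) *
          v (a - 1)‖ ^ 2 ≤ (4 - c) * ∑ a, ‖v a‖ ^ 2) := by
  have hpp : p.Prime := Fact.out
  have hp0 : (0 : ℤ) < p := by exact_mod_cast hpp.pos
  have hp3 : 3 ≤ p := by
    have h2 := hpp.two_le
    obtain ⟨m, hm⟩ := hodd
    omega
  set e : ZMod p := (((k1 - k2 : ℤ)) : ZMod p)⁻¹ with he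
  have hs : ((k1 : ZMod p)) + (k2 : ZMod p) = 0 := by
    have := (ZMod.intCast_zmod_eq_zero_iff_dvd (k1 + k2) p).2 hsum
    push_cast at this
    exact this
  have hk1 : (k1 : ZMod p) ≠ 0 := by
    intro h
    exact hk ((ZMod.intCast_zmod_eq_zero_iff_dvd k1 p).1 h)
  have h2 : (2 : ZMod p) ≠ 0 := by
    intro h
    have : ((2 : ℕ) : ZMod p) = 0 := by exact_mod_cast h
    rw [ZMod.natCast_eq_zero_iff] at this
    have := Nat.le_of_dvd (by norm_num) this
    omega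
  have hne : (((k1 - k2 : ℤ)) : ZMod p) ≠ 0 := by
    push_cast
    intro h
    have : (2 : ZMod p) * k1 = 0 := by linear_combination h + hs
    rcases mul_eq_zero.1 this with h' | h'
    · exact h2 h'
    · exact hk1 h'
  have hemul : (k1 - k2 : ZMod p) * e = 1 := by
    have := mul_inv_cancel₀ hne
    push_cast at this
    rw [he]
    push_cast
    exact this
  set t : ZMod p → ℤ := fun a => ((e * a).val : ℤ) with ht
  have htc : ∀ a, ((t a : ℤ) : ZMod p) = e * a := by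
    intro a
    rw [ht]
    simp
  have ht0 : ∀ a, 0 ≤ t a := fun a => Int.natCast_nonneg _
  have htp : ∀ a, t a ≤ p := by
    intro a
    have := (ZMod.val_lt (e * a)).le
    show ((e * a).val : ℤ) ≤ p
    exact_mod_cast this
  set C : ℤ := ((-(k2 : ZMod p) * e).val : ℤ) + p * (|k1| + |k2|) with hC
  have hCc : ((C : ℤ) : ZMod p) = -(k2 : ZMod p) * e := by
    rw [hC]
    push_cast
    simp
  have hCge : p * (|k1| + |k2|) ≤ C := by
    have : (0 : ℤ) ≤ ((-(k2 : ZMod p) * e).val : ℤ) := Int.natCast_nonneg _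
    rw [hC]; linarith
  have hlow : ∀ (k : ℤ) (a : ZMod p), -(|k| * p) ≤ k * t a := by
    intro k a
    have h1 : |k * t a| ≤ |k| * p := by
      rw [abs_mul, abs_of_nonneg (ht0 a)]
      exact mul_le_mul_of_nonneg_left (htp a) (abs_nonneg _)
    exact (abs_le.1 h1).1
  set s0 : ZMod p → ℤ := fun a => C + k1 * t a + k2 * t (a + 1) with hs0
  set s1 : ZMod p → ℤ := fun a => C + k1 * t (a + 1) + k2 * t a with hs1
  have hs0n : ∀ a, 0 ≤ s0 a := by
    intro a
    have := hlow k1 a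
    have := hlow k2 (a + 1)
    rw [hs0]
    simp only
    nlinarith
  have hs1n : ∀ a, 0 ≤ s1 a := by
    intro a
    have := hlow k1 (a + 1)
    have := hlow k2 a
    rw [hs1]
    simp only
    nlinarith
  have hs0c : ∀ a, ((s0 a : ℤ) : ZMod p) = 0 := by
    intro a
    rw [hs0]
    push_cast
    rw [hCc, htc, htc]
    linear_combination (e * a) * hs
  have hs1c : ∀ a, ((s1 a : ℤ) : ZMod p) = 1 := by
    intro a
    rw [hs1]
    push_cast
    rw [hCc, htc, htc]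
    linear_combination (e * a) * hs + hemul
  set σ : ZMod p → Fin 2 → ℕ := fun a b => if b = 0 then (s0 a).toNat else (s1 a).toNat with hσ
  have hσ0 : ∀ a, ((σ a 0 : ℕ) : ℤ) = s0 a := by
    intro a
    rw [hσ]
    simp [Int.toNat_of_nonneg (hs0n a)]
  have hσ1 : ∀ a, ((σ a 1 : ℕ) : ℤ) = s1 a := by
    intro a
    rw [hσ]
    simp [Int.toNat_of_nonneg (hs1n a)]
  have hm0 : ∀ a, σ a 0 % p = 0 := by
    intro a
    apply Nat.mod_eq_zero_of_dvd
    have h := hs0c a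
    rw [← hσ0] at h
    rw [Int.cast_natCast, ZMod.natCast_eq_zero_iff] at h
    exact h
  have hm1 : ∀ a, σ a 1 % p = 1 := by
    intro a
    have h := hs1c a
    rw [← hσ1, Int.cast_natCast] at h
    have h' : ((σ a 1 : ℕ) : ZMod p) = ((1 : ℕ) : ZMod p) := by rw [h]; simp
    rw [ZMod.natCast_eq_natCast_iff'] at h'
    rw [h', Nat.mod_eq_of_lt (by omega)]
  have hom0 : ∀ a, om p (σ a 0) = -((s0 a : ℝ)) ^ 2 / (p : ℝ) ^ 2 := by
    intro a
    unfold om
    rw [hm0]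
    have : ((σ a 0 : ℕ) : ℝ) = (s0 a : ℝ) := by
      rw [← hσ0]; push_cast; rfl
    rw [this]
    push_cast
    ring
  have hom1 : ∀ a, om p (σ a 1) = (1 - ((s1 a : ℝ)) ^ 2) / (p : ℝ) ^ 2 := by
    intro a
    unfold om
    rw [hm1]
    have : ((σ a 1 : ℕ) : ℝ) = (s1 a : ℝ) := by
      rw [← hσ1]; push_cast; rfl
    rw [this]
    push_cast
    ring
  -- the telescoping sum
  have htel : ∑ a, ((s1 a : ℝ) ^ 2 - (s0 a : ℝ) ^ 2) = 0 := by
    have h1 : ∀ a, ((s1 a : ℝ) ^ 2 - (s0 a : ℝ) ^ 2)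
        = (fun a => ((k1:ℝ) - k2) * (2 * C * (t a : ℝ) + (k1 + k2) * (t a : ℝ) ^ 2)) (a + 1)
          - (fun a => ((k1:ℝ) - k2) * (2 * C * (t a : ℝ) + (k1 + k2) * (t a : ℝ) ^ 2)) a := by
      intro a
      rw [hs0, hs1]
      push_cast
      ring
    rw [Finset.sum_congr rfl fun a _ => h1 a, Finset.sum_sub_distrib]
    rw [sub_eq_zero]
    exact Equiv.sum_comp (Equiv.addRight (1 : ZMod p))
      (fun a => ((k1:ℝ) - k2) * (2 * C * (t a : ℝ) + (k1 + k2) * (t a : ℝ) ^ 2))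
  have hpr : (0:ℝ) < p := by exact_mod_cast hpp.pos
  have hprod : ∏ a, (ee (om p (σ a 0)) * (starRingEnd ℂ) (ee (om p (σ a 1)))) = ee (-1 / p) := by
    have h1 : ∀ a, ee (om p (σ a 0)) * (starRingEnd ℂ) (ee (om p (σ a 1)))
        = ee (((s1 a : ℝ) ^ 2 - (s0 a : ℝ) ^ 2) / p ^ 2 - 1 / p ^ 2) := by
      intro a
      rw [ee_conj, ← ee_add, hom0, hom1]
      congr 1
      ring
    rw [Finset.prod_congr rfl fun a _ => h1 a, ee_sum]
    congr 1
    rw [Finset.sum_sub_distrib, ← Finset.sum_div, htel, Finset.sum_const, Finset.card_univ,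
      ZMod.card, nsmul_eq_mul]
    field_simp
    ring
  have hol : (∏ a, (ee (om p (σ a 0)) * (starRingEnd ℂ) (ee (om p (σ a 1))))) ^ 2 ≠ 1 := by
    rw [hprod, sq, ← ee_add]
    intro h
    obtain ⟨n, hn⟩ := ee_eq_one h
    have h1 : (n : ℝ) * p = -2 := by
      rw [← hn]; field_simp; ring
    have h3 : n * (p : ℤ) = -2 := by exact_mod_cast h1
    have h4 : (p : ℤ) ∣ 2 := ⟨-n, by linarith⟩
    have h5 : p ∣ 2 := by exact_mod_cast h4
    have := Nat.le_of_dvd (by norm_num) h5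
    omega
  obtain ⟨c, hc0, hc1, hcyc⟩ := cyc_norm hodd
    (fun a => ee (om p (σ a 0)) * (starRingEnd ℂ) (ee (om p (σ a 1))))
    (fun a => by rw [norm_mul, Complex.norm_conj, norm_ee, norm_ee, one_mul]) hol
  refine ⟨σ, fun a => -k1 * C - k1 * k2 * (t a + t (a + 1)), fun a => k1 * (k1 - k2) * t a,
    fun a => -(k1 - k2) * C - k2 * (k1 - k2) * t a, c, hc0, hc1, ?_, ?_, ?_, ?_⟩
  · intro a b
    fin_cases b
    · show σ a 0 % p ≤ 1
      rw [hm0]; norm_num
    · show σ a 1 % p ≤ 1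
      rw [hm1]
  · intro a b
    fin_cases b
    · show -k1 * C - k1 * k2 * (t a + t (a + 1)) + k1 * ((σ a 0 : ℕ) : ℤ) = _
      rw [hσ0, hs0]
      simp [yc]
      ring
    · show -k1 * C - k1 * k2 * (t a + t (a + 1)) + k1 * ((σ a 1 : ℕ) : ℤ) = _
      rw [hσ1, hs1]
      simp [yc]
      ring
  · intro a b
    fin_cases b
    · show -k1 * C - k1 * k2 * (t a + t (a + 1)) + k2 * ((σ a 0 : ℕ) : ℤ) = _
      rw [hσ0, hs0]
      simp [zc]
      ring
    · show -k1 * C - k1 * k2 * (t a + t (a + 1)) + k2 * ((σ a 1 : ℕ) : ℤ) = _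
      rw [hσ1, hs1]
      simp [zc]
      ring
  · exact hcyc

/-! ### the digit set -/

/-- the modulus used at a position -/
def qq (i : ℕ) : ℕ := (Nat.unpair i).1 + 3

/-- the scales -/
def Lm : ℕ → ℕ
  | 0 => 1
  | i + 1 => Lm i * (16 * 2 ^ i * ((i + 3)!) ^ 2)

/-- the digit set -/
def InT (N : ℕ) : Prop :=
  ∃ (J : Finset ℕ) (s : ℕ → ℕ), (∀ i ∈ J, s i % qq i ≤ 1 ∧ s i ≤ i) ∧
    Far (∑ i ∈ J, om (qq i) (s i)) ∧ N = ∑ i ∈ J, s i * Lm i

lemma inT_of {ι : Type} [Fintype ι] [DecidableEq ι] (g : ι → ℕ) (hg : Function.Injective g)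
    (s : ι → ℕ) (hs : ∀ i, s i % qq (g i) ≤ 1 ∧ s i ≤ g i)
    (h3 : Far (∑ i, om (qq (g i)) (s i))) :
    InT (∑ i, s i * Lm (g i)) := by
  classical
  refine ⟨Finset.univ.image g, Function.extend g s 0, ?_, ?_, ?_⟩
  · intro i hi
    obtain ⟨p, _, rfl⟩ := Finset.mem_image.1 hi
    rw [hg.extend_apply]
    exact hs p
  · rw [Finset.sum_image (fun a _ b _ h => hg h)]
    have : ∀ i ∈ (Finset.univ : Finset ι), om (qq (g i)) (Function.extend g s 0 (g i))
        = om (qq (g i)) (s i) := by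
      intro i _
      rw [hg.extend_apply]
    rw [Finset.sum_congr rfl this]
    exact h3
  · rw [Finset.sum_image (fun a _ b _ h => hg h)]
    apply Finset.sum_congr rfl
    intro p _
    rw [hg.extend_apply]

end Pool.Agent.Helper406.Rec2
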