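import Pool.Agent.Helper406.Rec.Neg
import Pool.Agent.Helper406.Rec2.Data

/-!
The finite periodic sets without corners of side in the digit set.
-/

namespace Pool.Agent.Helper406.Rec2

open Finset
open scoped Nat
open Pool.Agent.Helper406.Rec (avg ind ind_true ind_false ind_nonneg avg_mono avg_const avg_sum
  avg_sub avg_prod sum_zmod count_bad)

/-! ### equality modulo one -/

def EqZ (a b : ℝ) : Prop := ∃ k : ℤ, a - b = k

lemma EqZ.add {a b c d : ℝ} (h1 : EqZ a b) (h2 : EqZ c d) : EqZ (a + c) (b + d) := by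
  obtain ⟨k, hk⟩ := h1
  obtain ⟨l, hl⟩ := h2
  exact ⟨k + l, by push_cast; linarith⟩

lemma EqZ.sub {a b c d : ℝ} (h1 : EqZ a b) (h2 : EqZ c d) : EqZ (a - c) (b - d) := by
  obtain ⟨k, hk⟩ := h1
  obtain ⟨l, hl⟩ := h2
  exact ⟨k - l, by push_cast; linarith⟩

lemma EqZ.trans {a b c : ℝ} (h1 : EqZ a b) (h2 : EqZ b c) : EqZ a c := by
  obtain ⟨k, hk⟩ := h1
  obtain ⟨l, hl⟩ := h2
  exact ⟨k + l, by push_cast; linarith⟩

lemma EqZ.rfl' {a : ℝ} : EqZ a a := ⟨0, by simp⟩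

lemma EqZ.sum {ι : Type} (s : Finset ι) {f g : ι → ℝ} (h : ∀ i ∈ s, EqZ (f i) (g i)) :
    EqZ (∑ i ∈ s, f i) (∑ i ∈ s, g i) := by
  classical
  induction s using Finset.induction_on with
  | empty => simpa using EqZ.rfl'
  | insert a s ha ih =>
    rw [Finset.sum_insert ha, Finset.sum_insert ha]
    exact (h a (Finset.mem_insert_self a s)).add
      (ih fun i hi => h i (Finset.mem_insert_of_mem hi))

/-! ### digit functions -/

noncomputable def gq (q x : ℕ) : ℝ := (((x % q : ℕ) : ℝ) - (x : ℝ) ^ 2) / (q : ℝ) ^ 2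

noncomputable def hq (q x y : ℕ) : ℝ :=
  2 * x * y / (q : ℝ) ^ 2 + if x % q = q - 1 then (y : ℝ) / q else 0

lemma digit_id (q : ℕ) (hq2 : 2 ≤ q) (x y s : ℕ) (hs : s % q ≤ 1) :
    EqZ (gq q (x + s) - gq q x + (hq q x (y + s) - hq q x y)) (om q s) := by
  have hq0 : (q : ℝ) ≠ 0 := by
    have : 0 < q := by omega
    exact_mod_cast this.ne'
  have hmod : (x + s) % q = (x % q + s % q) % q := Nat.add_mod x s q
  have hxq : x % q < q := Nat.mod_lt _ (by omega)
  unfold gq hq om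
  rcases Nat.le_one_iff_eq_zero_or_eq_one.1 hs with h | h
  · have h1 : (x + s) % q = x % q := by rw [hmod, h, add_zero, Nat.mod_mod]
    rw [h1, h]
    obtain ⟨m, hm⟩ := Nat.dvd_of_mod_eq_zero h
    by_cases hx : x % q = q - 1
    · rw [if_pos hx, if_pos hx]
      refine ⟨m, ?_⟩
      rw [hm]
      push_cast
      field_simp
      ring
    · rw [if_neg hx, if_neg hx]
      refine ⟨0, ?_⟩
      push_cast
      field_simp
      ring
  · by_cases hx : x % q = q - 1
    · have h1 : (x + s) % q = 0 := by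
        rw [hmod, h, hx, Nat.sub_add_cancel (by omega), Nat.mod_self]
      rw [h1, h, if_pos hx, if_pos hx, hx]
      have hs' := Nat.mod_add_div s q
      rw [h] at hs'
      obtain ⟨m, hm⟩ : ∃ m : ℕ, s = 1 + q * m := ⟨s / q, hs'.symm⟩
      refine ⟨m, ?_⟩
      rw [Nat.cast_sub (by omega), hm]
      push_cast
      field_simp
      ring
    · have h1 : (x + s) % q = x % q + 1 := by
        rw [hmod, h, Nat.mod_eq_of_lt (by omega)]
      rw [h1, h, if_neg hx, if_neg hx]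
      refine ⟨0, ?_⟩
      push_cast
      field_simp
      ring

lemma mod_form {n a b : ℕ} (h : a ≡ b [MOD n]) : ∃ k : ℤ, (b : ℤ) = a + n * k := by
  have h1 : (n : ℤ) ∣ (b : ℤ) - a := (Nat.modEq_iff_dvd).1 h
  obtain ⟨k, hk⟩ := h1
  exact ⟨k, by linarith⟩

lemma gq_congr (q : ℕ) (hq2 : 2 ≤ q) {x x' : ℕ} (h : x ≡ x' [MOD q ^ 2]) :
    EqZ (gq q x) (gq q x') := by
  have hq0 : (q : ℝ) ≠ 0 := by
    have : 0 < q := by omega
    exact_mod_cast this.ne'
  obtain ⟨k, hk⟩ := mod_form h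
  have h1 : x % q = x' % q := h.of_dvd (dvd_pow_self q (by norm_num))
  have h2 : (x' : ℝ) = x + (q : ℝ) ^ 2 * k := by exact_mod_cast hk
  unfold gq
  rw [h1, h2]
  refine ⟨2 * x * k + q ^ 2 * k ^ 2, ?_⟩
  push_cast
  field_simp
  ring

lemma hq_congr (q : ℕ) (hq2 : 2 ≤ q) {x x' y y' : ℕ} (h : x ≡ x' [MOD q ^ 2])
    (h' : y ≡ y' [MOD q ^ 2]) : EqZ (hq q x y) (hq q x' y') := by
  have hq0 : (q : ℝ) ≠ 0 := by
    have : 0 < q := by omega
    exact_mod_cast this.ne'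
  obtain ⟨k, hk⟩ := mod_form h
  obtain ⟨l, hl⟩ := mod_form h'
  have h1 : x % q = x' % q := h.of_dvd (dvd_pow_self q (by norm_num))
  have h2 : (x' : ℝ) = x + (q : ℝ) ^ 2 * k := by exact_mod_cast hk
  have h3 : (y' : ℝ) = y + (q : ℝ) ^ 2 * l := by exact_mod_cast hl
  unfold hq
  rw [h1, h2, h3]
  by_cases hx : x' % q = q - 1
  · rw [if_pos hx, if_pos hx]
    refine ⟨-(2 * x * l + 2 * y * k + 2 * q ^ 2 * k * l) - q * l, ?_⟩
    push_cast
    field_simp
    ring
  · rw [if_neg hx, if_neg hx]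
    refine ⟨-(2 * x * l + 2 * y * k + 2 * q ^ 2 * k * l), ?_⟩
    push_cast
    field_simp
    ring

/-! ### scales -/

lemma Lm_pos (i : ℕ) : 0 < Lm i := by
  induction i with
  | zero => simp [Lm]
  | succ i ih =>
    rw [Lm]
    have : 0 < (i + 3)! := Nat.factorial_pos _
    positivity

lemma Lm_succ_dvd (i : ℕ) : Lm i ∣ Lm (i + 1) := by
  rw [Lm]; exact Dvd.intro _ rfl

lemma Lm_dvd' {i j : ℕ} (h : i ≤ j) : Lm i ∣ Lm j := by
  induction j, h using Nat.le_induction with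
  | base => exact dvd_rfl
  | succ j _ ih => exact ih.trans (Lm_succ_dvd j)

lemma qq_le (i : ℕ) : qq i ≤ i + 3 := by
  unfold qq
  have := Nat.unpair_left_le i
  omega

lemma qq_ge (i : ℕ) : 2 ≤ qq i := by unfold qq; omega

lemma Lm_dvd {i j : ℕ} (h : i < j) : qq i ^ 2 * Lm i ∣ Lm j := by
  have h1 : qq i ∣ (i + 3)! := Nat.dvd_factorial (by unfold qq; omega) (qq_le i)
  have h2 : qq i ^ 2 * Lm i ∣ Lm (i + 1) := by
    rw [Lm, mul_comm (qq i ^ 2)]
    apply Nat.mul_dvd_mul_left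
    exact Dvd.dvd.mul_left (pow_dvd_pow_of_dvd h1 2) _
  exact h2.trans (Lm_dvd' h)

/-- maximal lower part -/
def Rz (i : ℕ) : ℕ := ∑ j ∈ range i, j * Lm j

lemma Lm_succ_ge (i : ℕ) : 16 * 2 ^ i * ((i + 1) * Lm i) ≤ Lm (i + 1) := by
  rw [Lm]
  have h1 : i + 1 ≤ (i + 3)! ^ 2 := by
    have h2 : i + 3 ≤ (i + 3)! := Nat.self_le_factorial _
    have h3 : 1 ≤ (i + 3)! := Nat.factorial_pos _
    nlinarith
  calc 16 * 2 ^ i * ((i + 1) * Lm i) = Lm i * (16 * 2 ^ i * (i + 1)) := by ring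
    _ ≤ Lm i * (16 * 2 ^ i * (i + 3)! ^ 2) := by
        apply Nat.mul_le_mul_left
        exact Nat.mul_le_mul_left _ h1

lemma Rz_le (i : ℕ) : 8 * 2 ^ i * Rz i ≤ Lm i := by
  induction i with
  | zero => simp [Rz, Lm]
  | succ i ih =>
    have h1 : Rz (i + 1) = Rz i + i * Lm i := by
      unfold Rz
      rw [Finset.sum_range_succ]
    have h2 : Rz i ≤ Lm i := by
      have : 1 ≤ 2 ^ i := Nat.one_le_two_pow
      nlinarith
    have h3 : Rz (i + 1) ≤ (i + 1) * Lm i := by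
      rw [h1, add_mul, one_mul]; omega
    calc 8 * 2 ^ (i + 1) * Rz (i + 1) ≤ 8 * 2 ^ (i + 1) * ((i + 1) * Lm i) :=
          Nat.mul_le_mul_left _ h3
      _ = 16 * 2 ^ i * ((i + 1) * Lm i) := by ring
      _ ≤ Lm (i + 1) := Lm_succ_ge i

lemma le_Lm (i : ℕ) : i ≤ Lm i := by
  induction i with
  | zero => simp
  | succ i ih =>
    have h1 := Lm_succ_ge i
    have h2 := Lm_pos i
    have h3 : 1 ≤ 2 ^ i := Nat.one_le_two_pow
    have h4 : (i + 1) * Lm i ≤ 16 * 2 ^ i * ((i + 1) * Lm i) :=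
      Nat.le_mul_of_pos_left _ (by positivity)
    have h5 : (i + 1) ≤ (i + 1) * Lm i := Nat.le_mul_of_pos_right _ h2
    omega

def GoodAtz (i x : ℕ) : Prop := x % Lm i + Rz i < Lm i

lemma dig_addz (K i x : ℕ) (s : ℕ → ℕ) (hs : ∀ j, s j ≤ j) (hi : i < K) (hg : GoodAtz i x) :
    (x + ∑ j ∈ range K, s j * Lm j) / Lm i ≡ x / Lm i + s i [MOD qq i ^ 2] := by
  have hsplit : ∑ j ∈ range K, s j * Lm j
      = ∑ j ∈ range i, s j * Lm j + s i * Lm i + ∑ j ∈ Ico (i + 1) K, s j * Lm j := by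
    rw [← Finset.sum_range_succ, Finset.sum_range_add_sum_Ico _ hi]
  have hlow : ∑ j ∈ range i, s j * Lm j ≤ Rz i := by
    unfold Rz
    exact Finset.sum_le_sum fun j _ => Nat.mul_le_mul_right _ (hs j)
  have hhigh : qq i ^ 2 * Lm i ∣ ∑ j ∈ Ico (i + 1) K, s j * Lm j := by
    apply Finset.dvd_sum
    intro j hj
    rw [Finset.mem_Ico] at hj
    exact Dvd.dvd.mul_left (Lm_dvd (by omega)) _
  obtain ⟨h, hh⟩ := hhigh
  unfold GoodAtz at hg
  have hL := Lm_pos i
  have e1 : x + ∑ j ∈ range K, s j * Lm j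
      = (x % Lm i + ∑ j ∈ range i, s j * Lm j) + Lm i * (x / Lm i + s i + qq i ^ 2 * h) := by
    rw [hsplit, hh]
    have := Nat.mod_add_div x (Lm i)
    nlinarith
  rw [e1, Nat.add_mul_div_left _ _ hL, Nat.div_eq_of_lt (by omega), zero_add]
  exact (Nat.modEq_iff_dvd' (by omega)).2 (by simp) |>.symm

lemma dig_modz (i K x : ℕ) (hi : i < K) : (x % Lm K) / Lm i ≡ x / Lm i [MOD qq i ^ 2] := by
  obtain ⟨u, hu⟩ := Lm_dvd hi
  have hL := Lm_pos i
  have e1 : x = x % Lm K + Lm i * (qq i ^ 2 * (u * (x / Lm K))) := by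
    have := Nat.mod_add_div x (Lm K)
    rw [hu] at this ⊢
    nlinarith
  have e2 : x / Lm i = (x % Lm K) / Lm i + qq i ^ 2 * (u * (x / Lm K)) := by
    conv_lhs => rw [e1]
    rw [Nat.add_mul_div_left _ _ hL]
  rw [e2]
  exact (Nat.modEq_iff_dvd' (by omega)).2 (by simp)

/-! ### counting -/

def GoodAllz (K x : ℕ) : Prop := ∀ i < K, GoodAtz i x

instance (K : ℕ) : NeZero (Lm K) := ⟨(Lm_pos K).ne'⟩

lemma avg_badz (K : ℕ) : avg (fun x : ZMod (Lm K) => ind (¬ GoodAllz K x.val)) ≤ 1 / 4 := by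
  classical
  have h1 : ∀ x : ZMod (Lm K), ind (¬ GoodAllz K x.val) ≤
      ∑ i ∈ range K, ind (¬ GoodAtz i x.val) := by
    intro x
    by_cases h : GoodAllz K x.val
    · rw [ind_false (not_not.2 h)]
      exact Finset.sum_nonneg fun i _ => ind_nonneg _
    · have h' := h
      unfold GoodAllz at h'
      push Not at h'
      obtain ⟨i, hi, hb⟩ := h'
      rw [ind_true h, ← ind_true hb]
      exact Finset.single_le_sum (f := fun i => ind (¬ GoodAtz i x.val))
        (fun i _ => ind_nonneg _) (Finset.mem_range.2 hi)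
  refine (avg_mono h1).trans ?_
  rw [avg_sum]
  have h2 : ∀ i ∈ range K, avg (fun x : ZMod (Lm K) => ind (¬ GoodAtz i x.val))
      ≤ (1 / 8) * (1 / 2 : ℝ) ^ i := by
    intro i hi
    rw [Finset.mem_range] at hi
    obtain ⟨u, hu⟩ := Lm_dvd' hi.le
    have hL := Lm_pos i
    have hRL : Rz i ≤ Lm i := by
      have h3 := Rz_le i
      have h4 : 1 ≤ 2 ^ i := Nat.one_le_two_pow
      nlinarith
    unfold avg
    rw [sum_zmod (Lm K) (fun k => ind (¬ GoodAtz i k)), ZMod.card]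
    have h6 : ∑ k ∈ range (Lm K), ind (¬ GoodAtz i k) = (u : ℝ) * Rz i := by
      rw [hu]
      exact count_bad (Lm i) u (Rz i) hRL
    rw [h6]
    have hu0 : 0 < u := by
      rcases Nat.eq_zero_or_pos u with h | h
      · have := Lm_pos K
        rw [hu, h] at this
        simp at this
      · exact h
    have h7 : (Lm K : ℝ) = (Lm i : ℝ) * (u : ℝ) := by
      rw [hu]; push_cast; ring
    rw [h7]
    have hLr : (0:ℝ) < Lm i := by exact_mod_cast hL
    have hur : (0:ℝ) < (u : ℝ) := by exact_mod_cast hu0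
    rw [div_le_iff₀ (by positivity)]
    have h8 : (8:ℝ) * 2 ^ i * Rz i ≤ Lm i := by exact_mod_cast Rz_le i
    have h9 : (1 / 2 : ℝ) ^ i * 2 ^ i = 1 := by rw [← mul_pow]; norm_num
    have h10 : (Rz i : ℝ) ≤ 1 / 8 * (1 / 2) ^ i * Lm i := by
      have : (1 / 8 * (1 / 2 : ℝ) ^ i) * (8 * 2 ^ i * Rz i) ≤ (1 / 8 * (1 / 2 : ℝ) ^ i) * Lm i :=
        mul_le_mul_of_nonneg_left h8 (by positivity)
      have e : (1 / 8 * (1 / 2 : ℝ) ^ i) * (8 * 2 ^ i * Rz i) = Rz i := by
        calc _ = ((1 / 2 : ℝ) ^ i * 2 ^ i) * Rz i := by ring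
          _ = Rz i := by rw [h9, one_mul]
      rw [e] at this
      exact this
    calc (u : ℝ) * Rz i ≤ (u : ℝ) * (1 / 8 * (1 / 2) ^ i * Lm i) :=
          mul_le_mul_of_nonneg_left h10 hur.le
      _ = 1 / 8 * (1 / 2) ^ i * (↑(Lm i) * ↑u) := by ring
  refine (Finset.sum_le_sum h2).trans ?_
  rw [← Finset.mul_sum]
  have := sum_geometric_two_le K
  linarith

/-! ### the sets -/

noncomputable def Gz (K x : ℕ) : ℝ := ∑ i ∈ range K, gq (qq i) (x / Lm i)
noncomputable def Hz (K x y : ℕ) : ℝ := ∑ i ∈ range K, hq (qq i) (x / Lm i) (y / Lm i)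

/-- the cell of a real number modulo one -/
noncomputable def cell (r : ℝ) : Fin 30 :=
  ⟨⌊30 * Int.fract r⌋₊, by
    rw [Nat.floor_lt (by have := Int.fract_nonneg r; positivity)]
    have := Int.fract_lt_one r
    push_cast
    linarith⟩

lemma cell_close {r r' : ℝ} (h : cell r = cell r') : ∃ k : ℤ, |r - r' - k| < 1 / 30 := by
  have h1 : ⌊30 * Int.fract r⌋₊ = ⌊30 * Int.fract r'⌋₊ := by
    have := congrArg Fin.val h
    exact this
  have a1 := Int.fract_nonneg r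
  have a2 := Int.fract_nonneg r'
  have b1 := Nat.floor_le (a := 30 * Int.fract r) (by positivity)
  have b2 := Nat.floor_le (a := 30 * Int.fract r') (by positivity)
  have b3 := Nat.lt_floor_add_one (30 * Int.fract r)
  have b4 := Nat.lt_floor_add_one (30 * Int.fract r')
  rw [h1] at b1 b3
  refine ⟨⌊r⌋ - ⌊r'⌋, ?_⟩
  have e : r - r' - ((⌊r⌋ - ⌊r'⌋ : ℤ) : ℝ) = Int.fract r - Int.fract r' := by
    push_cast
    unfold Int.fract
    ring
  rw [e, abs_lt]
  constructor <;> linarith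

def AZ (K : ℕ) (g h : Fin 30) (x : ZMod (Lm K) × ZMod (Lm K)) : Prop :=
  (GoodAllz K x.1.val ∧ GoodAllz K x.2.val) ∧ cell (Gz K x.1.val) = g ∧
    cell (Hz K x.1.val x.2.val) = h

lemma exists_densez (K : ℕ) : ∃ g h : Fin 30, 1 / 1800 ≤ avg (fun x => ind (AZ K g h x)) := by
  classical
  by_contra hcon
  push Not at hcon
  have h1 : ∀ x : ZMod (Lm K) × ZMod (Lm K), 1 - ind (¬ GoodAllz K x.1.val)
      - ind (¬ GoodAllz K x.2.val) ≤ ∑ p : Fin 30 × Fin 30, ind (AZ K p.1 p.2 x) := by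
    intro x
    by_cases ha : GoodAllz K x.1.val
    · by_cases hb : GoodAllz K x.2.val
      · rw [ind_false (not_not.2 ha), ind_false (not_not.2 hb)]
        have h2 : AZ K (cell (Gz K x.1.val)) (cell (Hz K x.1.val x.2.val)) x :=
          ⟨⟨ha, hb⟩, rfl, rfl⟩
        have h3 := Finset.single_le_sum (f := fun p : Fin 30 × Fin 30 => ind (AZ K p.1 p.2 x))
          (fun p _ => ind_nonneg _)
          (Finset.mem_univ (cell (Gz K x.1.val), cell (Hz K x.1.val x.2.val)))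
        simp only at h3
        rw [ind_true h2] at h3
        linarith
      · rw [ind_true hb]
        have := ind_nonneg (¬ GoodAllz K x.1.val)
        have h4 : 0 ≤ ∑ p : Fin 30 × Fin 30, ind (AZ K p.1 p.2 x) :=
          Finset.sum_nonneg fun p _ => ind_nonneg _
        linarith
    · rw [ind_true ha]
      have := ind_nonneg (¬ GoodAllz K x.2.val)
      have h4 : 0 ≤ ∑ p : Fin 30 × Fin 30, ind (AZ K p.1 p.2 x) :=
        Finset.sum_nonneg fun p _ => ind_nonneg _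
      linarith
  have h2 := avg_mono h1
  rw [avg_sum, avg_sub, avg_sub, avg_const] at h2
  have h3 : avg (fun x : ZMod (Lm K) × ZMod (Lm K) => ind (¬ GoodAllz K x.1.val)) ≤ 1 / 4 := by
    rw [avg_prod]
    simp only [avg_const]
    exact avg_badz K
  have h4 : avg (fun x : ZMod (Lm K) × ZMod (Lm K) => ind (¬ GoodAllz K x.2.val)) ≤ 1 / 4 := by
    rw [avg_prod]
    simp only
    rw [avg_const]
    exact avg_badz K
  have h5 : ∑ p : Fin 30 × Fin 30, avg (fun x => ind (AZ K p.1 p.2 x)) <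
      ∑ _p : Fin 30 × Fin 30, (1 / 1800 : ℝ) :=
    Finset.sum_lt_sum_of_nonempty Finset.univ_nonempty fun p _ => hcon p.1 p.2
  have h6 : ∑ _p : Fin 30 × Fin 30, (1 / 1800 : ℝ) = 1 / 2 := by
    rw [Finset.sum_const, Finset.card_univ, Fintype.card_prod, Fintype.card_fin]
    norm_num
  linarith

/-- normal form of the elements of the digit set below `K` -/
lemma inT_normal {n K : ℕ} (hn : InT n) (hK : n < K) :
    ∃ s : ℕ → ℕ, (∀ i, s i % qq i ≤ 1 ∧ s i ≤ i) ∧
      Far (∑ i ∈ range K, om (qq i) (s i)) ∧ n = ∑ i ∈ range K, s i * Lm i := by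
  classical
  obtain ⟨J, s, hs, h3, hsum⟩ := hn
  have hbig : ∀ i ∈ J, s i ≠ 0 → i < K := by
    intro i hi hne
    have h1 : s i * Lm i ≤ n := by
      rw [hsum]
      exact Finset.single_le_sum (f := fun i => s i * Lm i) (fun _ _ => Nat.zero_le _) hi
    have h2 : Lm i ≤ s i * Lm i := Nat.le_mul_of_pos_left _ (Nat.pos_of_ne_zero hne)
    have h4 := le_Lm i
    omega
  have hom : ∀ q, om q 0 = 0 := by intro q; simp [om]
  have hgen : ∀ F : ℕ → ℕ → ℝ, (∀ i, F i 0 = 0) →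
      ∑ i ∈ range K, F i (if i ∈ J then s i else 0) = ∑ i ∈ J, F i (s i) := by
    intro F hF
    have h5 : ∑ i ∈ range K, F i (if i ∈ J then s i else 0)
        = ∑ i ∈ (range K).filter (fun i => i ∈ J), F i (s i) := by
      rw [Finset.sum_filter]
      apply Finset.sum_congr rfl; intro i _
      by_cases hi : i ∈ J <;> simp [hi, hF]
    rw [h5]
    apply Finset.sum_subset
    · intro i hi
      exact (Finset.mem_filter.1 hi).2
    · intro i hi hni
      have : s i = 0 := by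
        by_contra hne
        exact hni (Finset.mem_filter.2 ⟨Finset.mem_range.2 (hbig i hi hne), hi⟩)
      rw [this, hF]
  refine ⟨fun i => if i ∈ J then s i else 0, ?_, ?_, ?_⟩
  · intro i
    by_cases hi : i ∈ J
    · simp only [hi, if_true]; exact hs i hi
    · simp [hi]
  · rw [hgen (fun i t => om (qq i) t) (fun i => hom _)]
    exact h3
  · have h5 := hgen (fun i t => (t : ℝ) * Lm i) (fun i => by simp)
    have h6 : ((∑ i ∈ range K, (if i ∈ J then s i else 0) * Lm i : ℕ) : ℝ)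
        = ((∑ i ∈ J, s i * Lm i : ℕ) : ℝ) := by
      push_cast
      push_cast at h5
      exact h5
    rw [hsum]
    exact_mod_cast h6.symm

lemma no_cornerz (K : ℕ) (g h : Fin 30) (n : ℕ) (hn : InT n) (hK : n < K)
    (x : ZMod (Lm K) × ZMod (Lm K)) :
    ¬ (AZ K g h x ∧ AZ K g h (x.1 + n, x.2) ∧ AZ K g h (x.1, x.2 + n)) := by
  classical
  rintro ⟨⟨⟨ha, hb⟩, hg, hh⟩, ⟨_, hg', _⟩, ⟨_, _, hh'⟩⟩
  obtain ⟨s, hs, h3, hsum⟩ := inT_normal hn hK
  have hval : ∀ y : ZMod (Lm K), (y + (n : ZMod (Lm K))).val = (y.val + n) % Lm K := by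
    intro y
    rw [ZMod.val_add, ZMod.val_natCast, Nat.add_mod_mod]
  have hdig : ∀ y : ZMod (Lm K), GoodAllz K y.val → ∀ i ∈ range K,
      (y + (n : ZMod (Lm K))).val / Lm i ≡ y.val / Lm i + s i [MOD qq i ^ 2] := by
    intro y hy i hi
    rw [Finset.mem_range] at hi
    rw [hval]
    refine (dig_modz i K _ hi).trans ?_
    rw [hsum]
    exact dig_addz K i y.val s (fun j => (hs j).2) hi (hy i hi)
  simp only at hg' hh'
  obtain ⟨k, hk⟩ := cell_close (hg'.trans hg.symm)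
  obtain ⟨l, hl⟩ := cell_close (hh'.trans hh.symm)
  have e1 : EqZ (Gz K (x.1 + (n : ZMod (Lm K))).val - Gz K x.1.val
      + (Hz K x.1.val (x.2 + (n : ZMod (Lm K))).val - Hz K x.1.val x.2.val))
      (∑ i ∈ range K, om (qq i) (s i)) := by
    unfold Gz Hz
    rw [← Finset.sum_sub_distrib, ← Finset.sum_sub_distrib, ← Finset.sum_add_distrib]
    apply EqZ.sum
    intro i hi
    refine EqZ.trans ?_ (digit_id (qq i) (qq_ge i) (x.1.val / Lm i) (x.2.val / Lm i) (s i)
      (hs i).1)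
    apply EqZ.add
    · exact (gq_congr _ (qq_ge i) (hdig x.1 ha i hi)).sub EqZ.rfl'
    · exact (hq_congr _ (qq_ge i) (Nat.ModEq.refl _) (hdig x.2 hb i hi)).sub EqZ.rfl'
  obtain ⟨m, hm⟩ := e1
  have h5 := h3 (k + l - m)
  have h6 : (∑ i ∈ range K, om (qq i) (s i)) - ((k + l - m : ℤ) : ℝ)
      = (Gz K (x.1 + (n : ZMod (Lm K))).val - Gz K x.1.val - k)
      + (Hz K x.1.val (x.2 + (n : ZMod (Lm K))).val - Hz K x.1.val x.2.val - l) := by
    push_cast
    linarith
  rw [h6] at h5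
  have h7 := abs_add_le (Gz K (x.1 + (n : ZMod (Lm K))).val - Gz K x.1.val - k)
    (Hz K x.1.val (x.2 + (n : ZMod (Lm K))).val - Hz K x.1.val x.2.val - l)
  linarith

end Pool.Agent.Helper406.Rec2
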