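import Pool.Agent.Helper406.Rec2.Core

/-!
Reduction of an arbitrary pattern `0, k1, k2` to the arithmetic case.
-/

namespace Pool.Agent.Helper406.Rec2

open Finset MeasureTheory

universe u

/-- zero, or divisible by an odd prime -/
def Gd (M : ℤ) : Prop := M = 0 ∨ ∃ p : ℕ, p.Prime ∧ Odd p ∧ (p : ℤ) ∣ M

lemma pow_two_eq_aux {a b c : ℕ} (hab : a ≤ b) (h : 2 ^ a + 2 ^ b = 2 ^ c) : a = b := by
  by_contra hne
  have hlt : a + 1 ≤ b := by omega
  have h1 : 2 ^ (a + 1) ∣ 2 ^ b := pow_dvd_pow 2 hlt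
  have h2 : b < c := by
    by_contra hcb
    push Not at hcb
    have : 2 ^ c ≤ 2 ^ b := Nat.pow_le_pow_right (by norm_num) hcb
    have : 0 < 2 ^ a := by positivity
    omega
  have h3 : 2 ^ (a + 1) ∣ 2 ^ c := pow_dvd_pow 2 (by omega)
  rw [← h] at h3
  have h4 : 2 ^ (a + 1) ∣ 2 ^ a := (Nat.dvd_add_left h1).1 h3
  have h5 := Nat.le_of_dvd (by positivity) h4
  have : 0 < 2 ^ a := by positivity
  rw [pow_succ] at h5
  omega

lemma pow_two_eq {a b c : ℕ} (h : 2 ^ a + 2 ^ b = 2 ^ c) : 2 ^ a = 2 ^ b := by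
  rcases le_total a b with hab | hab
  · rw [pow_two_eq_aux hab h]
  · rw [add_comm] at h
    rw [pow_two_eq_aux hab h]

lemma not_Gd {M : ℤ} (h : ¬ Gd M) : ∃ k : ℕ, M = 2 ^ k ∨ M = -2 ^ k := by
  unfold Gd at h
  push Not at h
  obtain ⟨h0, hp⟩ := h
  rcases Nat.eq_two_pow_or_exists_odd_prime_and_dvd M.natAbs with ⟨k, hk⟩ | ⟨p, hpp, hpd, hpo⟩
  · refine ⟨k, ?_⟩
    rcases Int.natAbs_eq M with h1 | h1
    · left; rw [h1, hk]; push_cast; rfl
    · right; rw [h1, hk]; push_cast; rfl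
  · exact absurd (Int.natCast_dvd.2 hpd) (hp p hpp hpo)

lemma exists_good {U V : ℤ} (hU : U ≠ 0) (hV : V ≠ 0) (hUV : U ≠ V) :
    Gd (U + V) ∨ Gd (V - 2 * U) ∨ Gd (U - 2 * V) := by
  by_contra hcon
  push Not at hcon
  obtain ⟨h1, h2, h3⟩ := hcon
  obtain ⟨a, ha⟩ := not_Gd h1
  obtain ⟨b, hb⟩ := not_Gd h2
  obtain ⟨c, hc⟩ := not_Gd h3
  have key : ∀ a b c : ℕ, (2:ℤ) ^ a + 2 ^ b = 2 ^ c → (2:ℤ) ^ a = 2 ^ b := by
    intro a b c h
    have h' : 2 ^ a + 2 ^ b = 2 ^ c := by exact_mod_cast h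
    have := pow_two_eq h'
    exact_mod_cast this
  have pa : (0:ℤ) < 2 ^ a := by positivity
  have pb : (0:ℤ) < 2 ^ b := by positivity
  have pc : (0:ℤ) < 2 ^ c := by positivity
  have e1 := key a b c
  have e2 := key a c b
  have e3 := key b c a
  generalize (2:ℤ) ^ a = x at *
  generalize (2:ℤ) ^ b = y at *
  generalize (2:ℤ) ^ c = z at *
  rcases ha with ha | ha <;> rcases hb with hb | hb <;> rcases hc with hc | hc
  · omega
  · have := e1 (by omega); omega
  · have := e2 (by omega); omega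
  · have := e3 (by omega); omega
  · have := e3 (by omega); omega
  · have := e2 (by omega); omega
  · have := e1 (by omega); omega
  · omega

section
variable {X : Type u} [MeasurableSpace X] (μ : Measure X) [IsProbabilityMeasure μ]
  (S : Act μ) {A : Set X}

/-- the sped-up action -/
def Act.mul (g : ℤ) : Act μ where
  P j := S.P (g * j)
  zero x := by rw [mul_zero]; exact S.zero x
  add j k x := by rw [mul_add]; exact S.add _ _ x
  mp k := S.mp _

lemma nz_mul (g K1 K2 N : ℤ) : nz μ (S.mul μ g) A K1 K2 N = nz μ S A (g * K1) (g * K2) N := by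
  unfold nz Act.mul
  simp only [mul_assoc]

lemma nz_comm (k1 k2 N : ℤ) : nz μ S A k1 k2 N = nz μ S A k2 k1 N := by
  unfold nz
  congr 1
  ext x
  simp only [Set.mem_ofPred_eq]
  tauto

lemma nz_base (hA : MeasurableSet A) (k1 k2 N : ℤ) :
    nz μ S A k1 k2 N = nz μ S A (-k1) (k2 - k1) N := by
  rw [← shifted_z μ S hA (-k1) (k2 - k1) N (k1 * N)]
  unfold nz
  congr 1
  ext x
  simp only [Set.mem_ofPred_eq]
  have e1 : -k1 * N + k1 * N = 0 := by ring
  have e2 : (k2 - k1) * N + k1 * N = k2 * N := by ring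
  rw [e1, e2, S.zero]
  tauto

theorem positivity_cop (hA : MeasurableSet A) (hpos : 0 < μ A) (g K1 K2 : ℤ)
    (hcop : IsCoprime K1 K2) (h : Gd (K1 + K2)) :
    ∃ N : ℕ, InT N ∧ 0 < nz μ S A (g * K1) (g * K2) N := by
  have main : ∀ p : ℕ, p.Prime → Odd p → (p : ℤ) ∣ K1 + K2 →
      ∃ N : ℕ, InT N ∧ 0 < nz μ S A (g * K1) (g * K2) N := by
    intro p hp hodd hdvd
    have := Fact.mk hp
    have hk : ¬ (p : ℤ) ∣ K1 := by
      intro h1
      have h2 : (p : ℤ) ∣ K2 := (Int.dvd_add_right h1).1 hdvd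
      have h3 := hcop.isUnit_of_dvd' h1 h2
      rw [Int.isUnit_iff] at h3
      have := hp.two_le
      omega
    obtain ⟨N, hN, hpos'⟩ := positivity_core μ (S.mul μ g) hA hpos p hodd K1 K2 hdvd hk
    rw [nz_mul] at hpos'
    exact ⟨N, hN, hpos'⟩
  rcases h with h | ⟨p, hp, hodd, hdvd⟩
  · exact main 3 Nat.prime_three (by decide) (by rw [h]; exact dvd_zero _)
  · exact main p hp hodd hdvd

theorem positivity_all (hA : MeasurableSet A) (hpos : 0 < μ A) (k1 k2 : ℤ) :
    ∃ N : ℕ, InT N ∧ 0 < nz μ S A k1 k2 N := by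
  have degen : ∀ k : ℤ, (k1 = 0 ∨ k1 = k) → (k2 = 0 ∨ k2 = k) →
      ∃ N : ℕ, InT N ∧ 0 < nz μ S A k1 k2 N := by
    intro k h1 h2
    obtain ⟨N, hN, hp⟩ := positivity_cop μ S hA hpos k 1 2 (by norm_num)
      (Or.inr ⟨3, Nat.prime_three, by decide, by norm_num⟩)
    refine ⟨N, hN, lt_of_lt_of_le hp ?_⟩
    unfold nz
    apply measureReal_mono
    · intro x hx
      simp only [Set.mem_ofPred_eq] at hx ⊢
      obtain ⟨hx0, hx1, hx2⟩ := hx
      refine ⟨hx0, ?_, ?_⟩
      · rcases h1 with h1 | h1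
        · rw [h1, zero_mul, S.zero]; exact hx0
        · rw [h1]; simpa using hx1
      · rcases h2 with h2 | h2
        · rw [h2, zero_mul, S.zero]; exact hx0
        · rw [h2]; simpa using hx1
    · exact measure_ne_top _ _
  by_cases hk1 : k1 = 0
  · exact degen k2 (Or.inl hk1) (Or.inr rfl)
  by_cases hk2 : k2 = 0
  · exact degen k1 (Or.inr rfl) (Or.inl hk2)
  by_cases hk : k1 = k2
  · exact degen k1 (Or.inr rfl) (Or.inr hk.symm)
  obtain ⟨U, hU⟩ := Int.gcd_dvd_left k1 k2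
  obtain ⟨V, hV⟩ := Int.gcd_dvd_right k1 k2
  set g : ℤ := ((Int.gcd k1 k2 : ℕ) : ℤ) with hg
  have hg0 : g ≠ 0 := by
    intro h0
    rw [h0, zero_mul] at hU
    exact hk1 hU
  have hcop : IsCoprime U V := by
    have h1 := Int.gcd_eq_gcd_ab k1 k2
    refine ⟨Int.gcdA k1 k2, Int.gcdB k1 k2, ?_⟩
    have h2 : g * (Int.gcdA k1 k2 * U + Int.gcdB k1 k2 * V) = g * 1 := by
      calc g * (Int.gcdA k1 k2 * U + Int.gcdB k1 k2 * V)
          = (g * U) * Int.gcdA k1 k2 + (g * V) * Int.gcdB k1 k2 := by ring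
        _ = k1 * Int.gcdA k1 k2 + k2 * Int.gcdB k1 k2 := by rw [← hU, ← hV]
        _ = g * 1 := by rw [mul_one, hg]; exact h1.symm
    exact mul_left_cancel₀ hg0 h2
  have hU0 : U ≠ 0 := by rintro rfl; rw [mul_zero] at hU; exact hk1 hU
  have hV0 : V ≠ 0 := by rintro rfl; rw [mul_zero] at hV; exact hk2 hV
  have hUV : U ≠ V := by rintro rfl; exact hk (hU.trans hV.symm)
  obtain ⟨a, b, hab⟩ := hcop
  rcases exists_good hU0 hV0 hUV with h | h | h
  · obtain ⟨N, hN, hp⟩ := positivity_cop μ S hA hpos g U V ⟨a, b, hab⟩ h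
    rw [← hU, ← hV] at hp
    exact ⟨N, hN, hp⟩
  · obtain ⟨N, hN, hp⟩ := positivity_cop μ S hA hpos g (-U) (V - U)
      ⟨-a - b, b, by linear_combination hab⟩ (by
        have : -U + (V - U) = V - 2 * U := by ring
        rw [this]; exact h)
    refine ⟨N, hN, ?_⟩
    rw [nz_base μ S hA]
    have e1 : -k1 = g * (-U) := by rw [hU]; ring
    have e2 : k2 - k1 = g * (V - U) := by rw [mul_sub, ← hU, ← hV]
    rw [e1, e2]
    exact hp
  · obtain ⟨N, hN, hp⟩ := positivity_cop μ S hA hpos g (-V) (U - V)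
      ⟨-a - b, a, by linear_combination hab⟩ (by
        have : -V + (U - V) = U - 2 * V := by ring
        rw [this]; exact h)
    refine ⟨N, hN, ?_⟩
    rw [nz_comm, nz_base μ S hA]
    have e1 : -k2 = g * (-V) := by rw [hV]; ring
    have e2 : k1 - k2 = g * (U - V) := by rw [mul_sub, ← hU, ← hV]
    rw [e1, e2]
    exact hp

end

/-- the action generated by an invertible measure preserving map -/
def actOf {X : Type u} [MeasurableSpace X] (μ : Measure X) (T : X ≃ᵐ X)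
    (hT : MeasurePreserving T μ μ) : Act μ where
  P k := ((T.toEquiv : Equiv.Perm X) ^ k : Equiv.Perm X)
  zero x := by simp
  add j k x := by rw [zpow_add]; rfl
  mp k := by
    have hpow : ∀ n : ℕ, ∀ (R : X ≃ᵐ X), MeasurePreserving R μ μ →
        MeasurePreserving (((R.toEquiv : Equiv.Perm X) ^ n : Equiv.Perm X) : X → X) μ μ := by
      intro n R hR
      rw [← Equiv.Perm.iterate_eq_pow]
      exact hR.iterate n
    cases k with
    | ofNat n =>
      have := hpow n T hT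
      simpa using this
    | negSucc n =>
      have h1 := hpow (n + 1) T.symm (hT.symm T)
      have h2 : ((T.toEquiv : Equiv.Perm X) ^ (Int.negSucc n) : Equiv.Perm X)
          = ((T.symm.toEquiv : Equiv.Perm X) ^ (n + 1) : Equiv.Perm X) := by
        rw [zpow_negSucc, ← inv_pow]
        rfl
      rw [h2]
      exact h1

end Pool.Agent.Helper406.Rec2
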